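import Pool.Graph.R_pool_sql_team_seeded_35f281b4.K7.H20.AW.Defs

/-!
# Pairing the generators outside a set

Definitions used in the statement of `MP_a1ec0a_al.FewOccurrencesOutside`.
-/

set_option autoImplicit false

namespace Pool.Agent.H2.AW3

/-- The Coxeter matrix obtained from `M` as follows: all labels `2` and all labels between two elements
of `Y` are kept; the label of `i` and `j ≠ i` is also kept if `j` is the partner `p i` of `i` (or
`i ∈ Y`) and `i` is the partner `p j` of `j` (or `j ∈ Y`); all other labels off the diagonal are
replaced by infinity (the entry `0`). -/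
def pairUp {S : Type*} [DecidableEq S] (M : CoxeterMatrix S) (Y : Finset S) (p : S → S) :
    CoxeterMatrix S where
  M := Matrix.of fun i j =>
    if i = j then 1 else if M i j = 2 ∨ ((i ∈ Y ∨ p i = j) ∧ (j ∈ Y ∨ p j = i)) then M i j else 0
  isSymm := by
    ext i j
    simp only [Matrix.transpose_apply, Matrix.of_apply, M.symmetric i j, eq_comm (a := i),
      and_comm (a := i ∈ Y ∨ p i = j)]
  diagonal i := by simp
  off_diagonal i j h := by
    simp only [Matrix.of_apply, if_neg h]
    split_ifs
    · exact M.off_diagonal i j h
    · norm_num

/-- `p` is a pairing for the word `w`: every generator outside `Y` with exactly three syllables in `w`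
has a partner `p s`, the label of the two is `3`, and if the partner is not in `Y`, then `s` is its
partner; for all other generators `p s = s`. -/
def IsPairing {S : Type*} [DecidableEq S] (M : CoxeterMatrix S) (Y : Finset S)
    (w : List (S × ℤ)) (p : S → S) : Prop :=
  (∀ s, s ∈ Y ∨ Pool.Agent.K7.H20.AW.syllables s w ≠ 3 → p s = s) ∧
    ∀ s, s ∉ Y → Pool.Agent.K7.H20.AW.syllables s w = 3 → M s (p s) = 3 ∧ (p s ∉ Y → p (p s) = s)

/-- The submatrix of the rows and columns in `T`. -/
def submatrix {S : Type*} (M : CoxeterMatrix S) (T : Set S) : CoxeterMatrix T where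
  M := Matrix.of fun i j => M i.1 j.1
  isSymm := by
    ext i j
    exact M.symmetric _ _
  diagonal i := M.diagonal _
  off_diagonal i j h := M.off_diagonal _ _ fun h' => h (Subtype.ext h')

/-- The standard parabolic subgroup of `V` is of FC type: for all `T ⊆ V` without infinite labels
(entries `0`) the Coxeter group of `T` is finite. -/
def FCType {S : Type*} (M : CoxeterMatrix S) (V : Set S) : Prop :=
  ∀ T : Set S, T ⊆ V → (∀ s ∈ T, ∀ t ∈ T, M s t ≠ 0) → Finite (submatrix M T).Group

end Pool.Agent.H2.AW3
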