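import Pool.Agent.H2.AW3.Main
import Pool.Agent.H2.AW3.DefsR

/-!
# Decoupling generators with three odd syllables
-/

set_option autoImplicit false
set_option linter.unusedSectionVars false

namespace Pool.Agent.H2.AW3

open Pool.Agent.Helper741 Pool.Agent.K7.H87.FJ6 CoxeterSystem Pool.Agent.K7.H20.AW

section cut

variable {B : Type*} {M M' : CoxeterMatrix B}

/-- some labels are replaced by infinity -/
def Cut (M M' : CoxeterMatrix B) : Prop := ∀ i j, M' i j = M i j ∨ M' i j = 0

theorem Cut.trans {M'' : CoxeterMatrix B} (h : Cut M M') (h' : Cut M' M'') : Cut M M'' := by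
  intro i j
  rcases h' i j with h1 | h1
  · rw [h1]
    exact h i j
  · exact Or.inr h1

/-- the projection -/
def cq (H : Cut M M') : Art M' →* Art M :=
  Sh.lift (fun b => g M b) (fun i j => by
    rcases H i j with h | h
    · rw [h]
      exact Sh.rel i j
    · rw [h, alt_zero, alt_zero]) (fun _ => pow_zero _)

theorem cq_g (H : Cut M M') (b : B) : cq H (g M' b) = g M b := Sh.lift_gen _ _ _ _

theorem cq_val (H : Cut M M') (w : List (B × ℤ)) : cq H (val M' w) = val M w := by
  induction w with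
  | nil => exact map_one _
  | cons p w ih => rw [val_cons, val_cons, map_mul, ih, map_zpow, cq_g]

theorem cq_surj (H : Cut M M') {V : Set B} {x : Art M} (hx : x ∈ P M V) :
    ∃ x' ∈ P M' V, cq H x' = x := by
  induction hx using Subgroup.closure_induction with
  | mem x hx =>
    obtain ⟨b, hb, rfl⟩ := hx
    exact ⟨g _ b, g_mem hb, cq_g H b⟩
  | one => exact ⟨1, one_mem _, map_one _⟩
  | mul x y _ _ hx hy =>
    obtain ⟨u, hu, rfl⟩ := hx
    obtain ⟨v, hv, rfl⟩ := hy
    exact ⟨u * v, mul_mem hu hv, map_mul _ _ _⟩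
  | inv x _ hx =>
    obtain ⟨u, hu, rfl⟩ := hx
    exact ⟨u⁻¹, inv_mem hu, map_inv _ _⟩

theorem cq_mem (H : Cut M M') {V : Set B} {x : Art M'} (hx : x ∈ P M' V) : cq H x ∈ P M V := by
  induction hx using Subgroup.closure_induction with
  | mem x hx =>
    obtain ⟨b, hb, rfl⟩ := hx
    rw [cq_g]
    exact g_mem hb
  | one => rw [map_one]; exact one_mem _
  | mul x y _ _ hx hy => rw [map_mul]; exact mul_mem hx hy
  | inv x _ hx => rw [map_inv]; exact inv_mem hx

end cut

section inj

variable {B : Type*} [Fintype B] [DecidableEq B] {M M' : CoxeterMatrix B}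

/-- the subgroup of a set on which the labels agree -/
theorem cq_inj (H : Cut M M') {V : Set B} (hV : ∀ i ∈ V, ∀ j ∈ V, M' i j = M i j) {x y : Art M'}
    (hx : x ∈ P M' V) (hy : y ∈ P M' V) (h : cq H x = cq H y) : x = y := by
  let ι : {y : B // y ∈ V} → B := Subtype.val
  have hι : Function.Injective ι := Subtype.val_injective
  let J : Sh (pull M ι hι) (z0 B ∘ ι) →* Art M' :=
    Sh.lift (fun x => g M' (ι x)) (fun i j => by
      have h := Sh.rel (M := M') (p := z0 B) (ι i) (ι j)
      rw [hV _ i.2 _ j.2] at h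
      exact h) (fun _ => pow_zero _)
  have hJ : ∀ x, J (Sh.gen _ _ x) = g M' (ι x) := fun x => Sh.lift_gen _ _ _ _
  have hqJ : ∀ a, cq H (J a) = inc M (z0 B) ι hι a := by
    intro a
    induction a using Sh.induction with
    | one => rw [map_one, map_one, map_one]
    | gen x => rw [hJ, cq_g, inc_gen]
    | mul x y hx hy => rw [map_mul, map_mul, map_mul, hx, hy]
    | inv x hx => rw [map_inv, map_inv, map_inv, hx]
  have hr : P M' V ≤ J.range := by
    rw [P, Subgroup.closure_le]
    rintro _ ⟨b, hb, rfl⟩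
    exact ⟨Sh.gen _ _ ⟨b, hb⟩, hJ _⟩
  obtain ⟨a, rfl⟩ := hr hx
  obtain ⟨c, rfl⟩ := hr hy
  rw [hqJ, hqJ] at h
  rw [inc_injective (adm0 M) ι hι h]


/-- the relation of a generator with three syllables survives -/
theorem step3 {w : List (B × ℤ)} {b : B} (hodd : ∀ q ∈ w, q.1 = b → Odd q.2) (hx : ct b w = 3)
    (hw : val M w = 1) : ∃ t, M t b = 3 ∧ ∀ M' : CoxeterMatrix B, Cut M M' →
      (∀ i j, i ≠ b → j ≠ b → M' i j = M i j) → (∀ i, M i b = 2 → M' i b = 2) → M' t b = 3 →
      val M' w = 1 := by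
  obtain ⟨u, a, v1, rfl, hu, hv1⟩ := ct_split (b := b) (w := w) (by omega)
  obtain ⟨u1, c, v2, rfl, hu1, hv2⟩ := ct_split (b := b) (w := v1) (by omega)
  obtain ⟨u2, d, v, rfl, hu2, hv3⟩ := ct_split (b := b) (w := v2) (by omega)
  have hv0 : ct b v = 0 := by omega
  have ha : Odd a := hodd (b, a) (by simp) rfl
  have hc : Odd c := hodd (b, c) (by simp) rfl
  have hd : Odd d := hodd (b, d) (by simp) rfl
  obtain ⟨t, ht, har, l, hl, m, hm, n, hn, e1, e2, e3⟩ := occ3 hu hu1 hu2 hv0 ha hc hd hw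
  have htb : t ≠ b := by
    rintro rfl
    rw [M.diagonal] at ht
    norm_num at ht
  refine ⟨t, ht, fun M' H hH h2 h3 => ?_⟩
  obtain ⟨l', hl', rfl⟩ := cq_surj H hl
  obtain ⟨m', hm', rfl⟩ := cq_surj H hm
  obtain ⟨n', hn', rfl⟩ := cq_surj H hn
  have hsub : lkb M b ⊆ ({b}ᶜ : Set B) := fun u hu => hu.1
  have hsub' : lkb M b ⊆ lkb M' b := fun u hu => ⟨hu.1, h2 u hu.2⟩
  have hV : ∀ i ∈ ({b}ᶜ : Set B), ∀ j ∈ ({b}ᶜ : Set B), M' i j = M i j :=
    fun i hi j hj => hH i j hi hj
  have gt : ∀ e : ℤ, g M' t ^ e ∈ P M' {b}ᶜ := fun e => zpow_mem (g_mem htb) _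
  have f1 : val M' u1 = l' * g M' t ^ (-d) * m' := by
    refine cq_inj H hV (val_mem (ct_eq_zero hu1))
      (mul_mem (mul_mem (P_mono hsub hl') (gt _)) (P_mono hsub hm')) ?_
    rw [cq_val, e1]
    simp only [map_mul, map_zpow, cq_g]
  have f2 : val M' u2 = m'⁻¹ * g M' t ^ (-a) * n' := by
    refine cq_inj H hV (val_mem (ct_eq_zero hu2))
      (mul_mem (mul_mem (inv_mem (P_mono hsub hm')) (gt _)) (P_mono hsub hn')) ?_
    rw [cq_val, e2]
    simp only [map_mul, map_zpow, map_inv, cq_g]
  have f3 : val M' (v ++ u) = n'⁻¹ * g M' t ^ (-c) * l'⁻¹ := by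
    refine cq_inj H hV (val_mem fun q hq => ?_)
      (mul_mem (mul_mem (inv_mem (P_mono hsub hn')) (gt _)) (inv_mem (P_mono hsub hl'))) ?_
    · rcases List.mem_append.1 hq with h | h
      · exact ct_eq_zero hv0 q h
      · exact ct_eq_zero hu q h
    · rw [cq_val, e3]
      simp only [map_mul, map_zpow, map_inv, cq_g]
  have h4 := rel3_bwd h3 ha hc hd har (P_mono hsub' hl') (P_mono hsub' hm') (P_mono hsub' hn')
  rw [← f1, ← f2, ← f3] at h4
  rw [val_append] at h4
  have h5 : val M' (u ++ (b, a) :: (u1 ++ (b, c) :: (u2 ++ (b, d) :: v))) =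
      val M' u * (g M' b ^ a * val M' u1 * g M' b ^ c * val M' u2 * g M' b ^ d *
        (val M' v * val M' u)) * (val M' u)⁻¹ := by
    simp only [val_append, val_cons]
    group
  rw [h5, h4, mul_one, mul_inv_cancel]

/-- the partner is unique -/
theorem partner_unique {w : List (B × ℤ)} {b : B} (hodd : ∀ q ∈ w, q.1 = b → Odd q.2)
    (hx : ct b w = 3) {M1 M2 : CoxeterMatrix B} (H1 : Cut M M1) (H2 : Cut M M2)
    (hw1 : val M1 w = 1) (hw2 : val M2 w = 1) {t1 t2 : B} (h1 : ∀ t, M1 t b = 3 → t = t1)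
    (h2 : ∀ t, M2 t b = 3 → t = t2) : t1 = t2 := by
  obtain ⟨u, a, v1, rfl, hu, hv1⟩ := ct_split (b := b) (w := w) (by omega)
  obtain ⟨u1, c, v2, rfl, hu1, hv2⟩ := ct_split (b := b) (w := v1) (by omega)
  obtain ⟨u2, d, v, rfl, hu2, hv3⟩ := ct_split (b := b) (w := v2) (by omega)
  have hv0 : ct b v = 0 := by omega
  have ha : Odd a := hodd (b, a) (by simp) rfl
  have hc : Odd c := hodd (b, c) (by simp) rfl
  have hd : Odd d := hodd (b, d) (by simp) rfl
  have key : ∀ {M1 : CoxeterMatrix B} (H1 : Cut M M1),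
      val M1 (u ++ (b, a) :: (u1 ++ (b, c) :: (u2 ++ (b, d) :: v))) = 1 →
      ∃ t, M1 t b = 3 ∧ M t b = 3 ∧ ∃ l ∈ P M (lkb M b), ∃ m ∈ P M (lkb M b),
        val M u1 = l * g M t ^ (-d) * m := by
    intro M1 H1 hw1
    obtain ⟨t, ht, har, l, hl, m, hm, n, hn, e1, e2, e3⟩ := occ3 hu hu1 hu2 hv0 ha hc hd hw1
    have hsub : lkb M1 b ⊆ lkb M b := by
      rintro x ⟨hx1, hx2⟩
      refine ⟨hx1, ?_⟩
      rcases H1 x b with h | h
      · rw [← h]
        exact hx2
      · rw [hx2] at h
        norm_num at h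
    refine ⟨t, ht, ?_, cq H1 l, P_mono hsub (cq_mem H1 hl), cq H1 m, P_mono hsub (cq_mem H1 hm), ?_⟩
    · rcases H1 t b with h | h
      · rw [← h]
        exact ht
      · rw [ht] at h
        norm_num at h
    · rw [← cq_val H1, e1]
      simp only [map_mul, map_zpow, cq_g]
  obtain ⟨s1, hs1, hs1', l1, hl1, m1, hm1, e1⟩ := key H1 hw1
  obtain ⟨s2, hs2, hs2', l2, hl2, m2, hm2, e2⟩ := key H2 hw2
  rw [← h1 s1 hs1, ← h2 s2 hs2]
  by_contra hne
  have hlt : lkb M b ⊆ ({s1}ᶜ : Set B) := lkb_sub (by omega)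
  have h5 : g M s1 ^ (-d) ∈ P M {s1}ᶜ := by
    have h6 : g M s1 ^ (-d) = l1⁻¹ * (l2 * g M s2 ^ (-d) * m2) * m1⁻¹ := by
      rw [← e2, e1]
      group
    rw [h6]
    exact mul_mem (mul_mem (inv_mem (P_mono hlt hl1)) (mul_mem (mul_mem (P_mono hlt hl2)
      (zpow_mem (g_mem (Ne.symm hne)) _)) (P_mono hlt hm2))) (inv_mem (P_mono hlt hm1))
  have h7 := K7.H20.AW.pow_mem h5
  have h8 := hd.neg
  rw [h7] at h8
  exact absurd h8 (by decide)

/-- keep the labels `2` and the label of `b` and `t` among the labels of `b` -/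
def cutAt (M : CoxeterMatrix B) (b t : B) : CoxeterMatrix B where
  M := Matrix.of fun i j =>
    if i = j then 1 else if M i j ≠ 2 ∧ ((i = b ∧ j ≠ t) ∨ (j = b ∧ i ≠ t)) then 0 else M i j
  isSymm := by
    ext i j
    simp only [Matrix.transpose_apply, Matrix.of_apply]
    by_cases h : i = j
    · rw [if_pos h, if_pos h.symm]
    · rw [if_neg h, if_neg (Ne.symm h), M.symmetric j i]
      exact if_congr (and_congr_right fun _ => or_comm) rfl rfl
  diagonal i := by simp
  off_diagonal i j h := by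
    simp only [Matrix.of_apply, if_neg h]
    split_ifs
    · norm_num
    · exact M.off_diagonal i j h

theorem cutAt_apply (M : CoxeterMatrix B) (b t i j : B) : cutAt M b t i j =
    if i = j then 1 else if M i j ≠ 2 ∧ ((i = b ∧ j ≠ t) ∨ (j = b ∧ i ≠ t)) then 0 else M i j := rfl

/-- all generators of a set -/
theorem iter {w : List (B × ℤ)} (hw : val M w = 1) (T : Finset B)
    (hT : ∀ b ∈ T, ct b w = 3 ∧ ∀ q ∈ w, q.1 = b → Odd q.2) :
    ∃ M', Cut M M' ∧ (∀ i j, M i j = 2 → M' i j = 2) ∧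
      (∀ i j, i ∉ T → j ∉ T → M' i j = M i j) ∧
      (∀ b ∈ T, ∃ t, ∀ i, i ≠ b → i ≠ t → M' i b = 2 ∨ M' i b = 0) ∧ val M' w = 1 := by
  induction T using Finset.induction_on with
  | empty => exact ⟨M, fun i j => Or.inl rfl, fun _ _ h => h, fun _ _ _ _ => rfl, by simp, hw⟩
  | insert b T hb ih =>
    obtain ⟨M1, H1, h2, h3, h4, h5⟩ := ih fun b' hb' => hT b' (Finset.mem_insert_of_mem hb')
    obtain ⟨hct, ho⟩ := hT b (Finset.mem_insert_self b T)
    obtain ⟨t, ht, hstep⟩ := step3 ho hct h5
    have htb : t ≠ b := by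
      rintro rfl
      rw [M1.diagonal] at ht
      norm_num at ht
    have H2 : Cut M1 (cutAt M1 b t) := by
      intro i j
      rw [cutAt_apply]
      by_cases hij : i = j
      · left
        rw [if_pos hij, hij, M1.diagonal]
      · rw [if_neg hij]
        split_ifs
        · exact Or.inr rfl
        · exact Or.inl rfl
    have k2 : ∀ i j, M1 i j = 2 → cutAt M1 b t i j = 2 := by
      intro i j h
      have hij : i ≠ j := by
        rintro rfl
        rw [M1.diagonal] at h
        norm_num at h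
      rw [cutAt_apply, if_neg hij, if_neg (fun h' => h'.1 h), h]
    have k3 : ∀ i j, i ≠ b → j ≠ b → cutAt M1 b t i j = M1 i j := by
      intro i j hi hj
      rw [cutAt_apply]
      by_cases hij : i = j
      · rw [if_pos hij, hij, M1.diagonal]
      · rw [if_neg hij, if_neg]
        rintro ⟨_, h | h⟩
        · exact hi h.1
        · exact hj h.1
    have k4 : cutAt M1 b t t b = 3 := by
      rw [cutAt_apply, if_neg htb, if_neg, ht]
      rintro ⟨_, h | h⟩
      · exact htb h.1
      · exact h.2 rfl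
    refine ⟨cutAt M1 b t, H1.trans H2, fun i j h => k2 i j (h2 i j h), ?_, ?_,
      hstep _ H2 k3 (fun i h => k2 i b h) k4⟩
    · intro i j hi hj
      rw [k3 i j (fun h => hi (h ▸ Finset.mem_insert_self b T))
        (fun h => hj (h ▸ Finset.mem_insert_self b T))]
      exact h3 i j (fun h => hi (Finset.mem_insert_of_mem h))
        (fun h => hj (Finset.mem_insert_of_mem h))
    · intro b' hb'
      rcases Finset.mem_insert.1 hb' with rfl | hb''
      · refine ⟨t, fun i hi hit => ?_⟩
        rw [cutAt_apply, if_neg hi]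
        by_cases h : M1 i b' = 2
        · left
          rw [if_neg (fun h' => h'.1 h), h]
        · right
          rw [if_pos ⟨h, Or.inr ⟨rfl, hit⟩⟩]
      · obtain ⟨t', ht'⟩ := h4 b' hb''
        refine ⟨t', fun i hi hit => ?_⟩
        rcases H2 i b' with h | h
        · rw [h]
          exact ht' i hi hit
        · exact Or.inr h

theorem pairUp_apply (Y : Finset B) (p : B → B) (i j : B) : pairUp M Y p i j =
    if i = j then 1 else
      if M i j = 2 ∨ ((i ∈ Y ∨ p i = j) ∧ (j ∈ Y ∨ p j = i)) then M i j else 0 := rfl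

theorem pairUp_cut (Y : Finset B) (p : B → B) : Cut M (pairUp M Y p) := by
  intro i j
  rw [pairUp_apply]
  by_cases hij : i = j
  · left
    rw [if_pos hij, hij, M.diagonal]
  · rw [if_neg hij]
    split_ifs
    · exact Or.inl rfl
    · exact Or.inr rfl

/-- the partner is the only generator with label three -/
theorem pairUp_three {Y : Finset B} {p : B → B} {b t : B} (hb : b ∉ Y)
    (h : pairUp M Y p t b = 3) : t = p b := by
  rw [pairUp_apply] at h
  by_cases htb : t = b
  · rw [if_pos htb] at h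
    norm_num at h
  · rw [if_neg htb] at h
    by_cases hc : M t b = 2 ∨ ((t ∈ Y ∨ p t = b) ∧ (b ∈ Y ∨ p b = t))
    · rw [if_pos hc] at h
      rcases hc with h1 | ⟨_, h1 | h1⟩
      · rw [h1] at h
        norm_num at h
      · exact absurd h1 hb
      · exact h1.symm
    · rw [if_neg hc] at h
      norm_num at h

theorem rel_main {Y : Finset B} {w : List (B × ℤ)}
    (hY : ∀ s, s ∉ Y → ct s w ≤ 3 ∧ ∀ q ∈ w, q.1 = s → Odd q.2) :
    val M w = 1 ↔ ∃! p : B → B, IsPairing M Y w p ∧ val (pairUp M Y p) w = 1 := by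
  classical
  constructor
  · intro hw
    let T : Finset B := Finset.univ.filter fun s => s ∉ Y ∧ ct s w = 3
    have hTmem : ∀ s, s ∈ T ↔ s ∉ Y ∧ ct s w = 3 := by simp [T]
    obtain ⟨M1, H1, h2, h3, h4, h5⟩ := iter hw T fun b hb =>
      ⟨((hTmem b).1 hb).2, (hY b ((hTmem b).1 hb).1).2⟩
    have h6 : val (decouple M1 (Y ∪ T)) w = 1 := by
      refine (dec_thm (Y := Y ∪ T) fun b hb => ?_).1 h5
      rw [Finset.mem_union, not_or] at hb
      have h7 := hY b hb.1
      refine ⟨h7.2, Or.inl ?_⟩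
      have h8 : ct b w ≠ 3 := fun h => hb.2 ((hTmem b).2 ⟨hb.1, h⟩)
      omega
    set M2 := decouple M1 (Y ∪ T) with hM2
    have H2 : Cut M1 M2 := by
      intro i j
      rw [hM2, dec_apply]
      by_cases hij : i = j
      · left
        rw [if_pos hij, hij, M1.diagonal]
      · rw [if_neg hij]
        split_ifs
        · exact Or.inl rfl
        · exact Or.inr rfl
    have hne3 : ∀ {i j}, M2 i j ≠ 0 → i ≠ j → M2 i j ≠ 2 →
        M2 i j = M1 i j ∧ i ∈ Y ∪ T ∧ j ∈ Y ∪ T := by
      intro i j h0 hij hn2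
      rw [hM2, dec_apply, if_neg hij] at h0 hn2 ⊢
      by_cases hc : M1 i j = 2 ∨ (i ∈ Y ∪ T ∧ j ∈ Y ∪ T)
      · rw [if_pos hc] at h0 hn2 ⊢
        rcases hc with h7 | h7
        · exact absurd h7 hn2
        · exact ⟨rfl, h7⟩
      · rw [if_neg hc] at h0
        exact absurd rfl h0
    -- the partner
    have hpart : ∀ b ∈ T, ∃ t, M2 t b = 3 := fun b hb => by
      obtain ⟨t, ht, _⟩ := step3 (hY b ((hTmem b).1 hb).1).2 ((hTmem b).1 hb).2 h6
      exact ⟨t, ht⟩
    choose! f hf using hpart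
    have hne : ∀ b ∈ T, f b ≠ b := by
      intro b hb h
      have h7 := hf b hb
      rw [h, M2.diagonal] at h7
      norm_num at h7
    -- uniqueness of the partner in `M2`
    have huniq : ∀ b ∈ T, ∀ i, i ≠ b → M2 i b ≠ 2 → M2 i b ≠ 0 → i = f b := by
      intro b hb i hib h22 h20
      obtain ⟨t, ht⟩ := h4 b hb
      have key : ∀ i, i ≠ b → M2 i b ≠ 2 → M2 i b ≠ 0 → i = t := by
        intro i hib h22 h20
        by_contra hit
        rcases H2 i b with h | h
        · rcases ht i hib hit with h7 | h7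
          · exact h22 (h.trans h7)
          · exact h20 (h.trans h7)
        · exact h20 h
      rw [key i hib h22 h20]
      refine (key (f b) (hne b hb) ?_ ?_).symm
      · rw [hf b hb]; norm_num
      · rw [hf b hb]; norm_num
    let p : B → B := fun b => if b ∈ T then f b else b
    have hpT : ∀ b ∈ T, p b = f b := fun b hb => if_pos hb
    have hpN : ∀ b, b ∉ T → p b = b := fun b hb => if_neg hb
    have hfYT : ∀ b ∈ T, f b ∈ Y ∪ T := fun b hb =>
      (hne3 (by rw [hf b hb]; norm_num) (hne b hb) (by rw [hf b hb]; norm_num)).2.1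
    have H12 : Cut M M2 := H1.trans H2
    have hcut : Cut (pairUp M Y p) M2 := by
      intro i j
      by_cases hij : i = j
      · left
        rw [hij, M2.diagonal, (pairUp M Y p).diagonal]
      by_cases h0 : M2 i j = 0
      · exact Or.inr h0
      left
      have hM : M2 i j = M i j := (H12 i j).resolve_right h0
      rw [pairUp_apply, if_neg hij]
      by_cases h22 : M2 i j = 2
      · rw [if_pos (Or.inl (hM ▸ h22)), hM]
      · obtain ⟨_, hi, hj⟩ := hne3 h0 hij h22
        rw [if_pos, hM]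
        right
        constructor
        · rcases Finset.mem_union.1 hi with h | h
          · exact Or.inl h
          · right
            rw [hpT i h]
            refine (huniq i h j (Ne.symm hij) ?_ ?_).symm
            · rw [M2.symmetric]; exact h22
            · rw [M2.symmetric]; exact h0
        · rcases Finset.mem_union.1 hj with h | h
          · exact Or.inl h
          · right
            rw [hpT j h]
            exact (huniq j h i hij h22 h0).symm
    refine ⟨p, ⟨⟨?_, ?_⟩, ?_⟩, ?_⟩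
    · intro s hs
      apply hpN
      rw [hTmem]
      rintro ⟨h7, h8⟩
      rcases hs with h | h
      · exact h7 h
      · exact h h8
    · intro s hs h3s
      have hsT : s ∈ T := (hTmem s).2 ⟨hs, h3s⟩
      rw [hpT s hsT]
      constructor
      · have h7 := hf s hsT
        rcases H12 (f s) s with h | h
        · rw [M.symmetric, ← h]
          exact h7
        · rw [h7] at h
          norm_num at h
      · intro hfs
        have hfT : f s ∈ T := (Finset.mem_union.1 (hfYT s hsT)).resolve_left hfs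
        rw [hpT _ hfT]
        refine (huniq (f s) hfT s (Ne.symm (hne s hsT)) ?_ ?_).symm
        · rw [M2.symmetric, hf s hsT]; norm_num
        · rw [M2.symmetric, hf s hsT]; norm_num
    · rw [← cq_val hcut, h6, map_one]
    · rintro p' ⟨⟨hp1, hp2⟩, hp3⟩
      funext b
      by_cases hb : b ∈ T
      · obtain ⟨hbY, hb3⟩ := (hTmem b).1 hb
        rw [hpT b hb]
        refine partner_unique (hY b hbY).2 hb3 (pairUp_cut Y p') H12 hp3 h6
          (fun t ht => pairUp_three hbY ht) (fun t ht => ?_)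
        refine huniq b hb t ?_ (by rw [ht]; norm_num) (by rw [ht]; norm_num)
        rintro rfl
        rw [M2.diagonal] at ht
        norm_num at ht
      · rw [hpN b hb]
        apply hp1
        rw [hTmem, not_and_or, not_not] at hb
        exact hb
  · rintro ⟨p, ⟨_, hp⟩, _⟩
    rw [← cq_val (pairUp_cut Y p), hp, map_one]

end inj

end Pool.Agent.H2.AW3
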