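import Pool.Graph.R_pool_sql_team_seeded_35f281b4.K7.H20.AW.Defs

/-!
# Linked and braided generators of a word

Definitions used in the statement of `MP_a1ec0a_al.ThreeOccurrencesEach`.
-/

set_option autoImplicit false

namespace Pool.Agent.H2.AW3

/-- The subword formed by the syllables of `x` and of `y` (the syllables of `x`, if `x = y`). -/
def sub {S : Type*} [DecidableEq S] (w : List (S × ℤ)) (x y : S) : List (S × ℤ) :=
  w.filter fun q => q.1 = x ∨ q.1 = y

/-- The generators `x` and `y` are linked in the word: `x, y, x, y` or `y, x, y, x` is a (scattered)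
subword of the sequence of the generators of its syllables. -/
def Linked {S : Type*} (w : List (S × ℤ)) (x y : S) : Prop :=
  [x, y, x, y].Sublist (w.map Prod.fst) ∨ [y, x, y, x].Sublist (w.map Prod.fst)

/-- The generators `x` and `y` are braided in the word: their label is `3` and the syllables of `x`
and `y` form, in this order, a relator
`x ^ a, y ^ (-d), x ^ c, y ^ (-a), x ^ d, y ^ (-c)` with `a + c + d + a c d = 0`,
or the same with `x` and `y` exchanged. -/
def Braided {S : Type*} [DecidableEq S] (M : CoxeterMatrix S) (w : List (S × ℤ)) (x y : S) : Prop :=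
  M x y = 3 ∧ ∃ a c d : ℤ, a + c + d + a * c * d = 0 ∧
    (sub w x y = [(x, a), (y, -d), (x, c), (y, -a), (x, d), (y, -c)] ∨
      sub w x y = [(y, a), (x, -d), (y, c), (x, -a), (y, d), (x, -c)])

end Pool.Agent.H2.AW3
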