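import Pool.Agent.H2.AW3.Cut
import Mathlib.GroupTheory.NoncommPiCoprod

/-!
# The new group is of FC type
-/

set_option autoImplicit false
set_option linter.unusedSectionVars false

namespace Pool.Agent.H2.AW3

open Pool.Agent.K7.H20.AW

section gp

variable {G : Type*} [Group G]

/-- two involutions with a product of order three -/
theorem fin_pair {a b : G} (ha : a * a = 1) (hb : b * b = 1) (hab : a * b * a = b * a * b) :
    ((Subgroup.closure {a, b} : Subgroup G) : Set G).Finite := by
  refine Set.Finite.subset (s := {1, a, b, a * b, b * a, a * b * a}) (by
    simp only [Set.finite_insert, Set.finite_singleton]) ?_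
  intro x hx
  have key : ∀ y : G, y ∈ ({1, a, b, a * b, b * a, a * b * a} : Set G) →
      a * y ∈ ({1, a, b, a * b, b * a, a * b * a} : Set G) ∧
      b * y ∈ ({1, a, b, a * b, b * a, a * b * a} : Set G) := by
    intro y hy
    simp only [Set.mem_insert_iff, Set.mem_singleton_iff] at hy ⊢
    rcases hy with rfl | rfl | rfl | rfl | rfl | rfl
    · simp
    · simp [ha]
    · simp [hb]
    · constructor
      · right; right; left
        rw [← mul_assoc, ha, one_mul]
      · right; right; right; right; right
        rw [hab, mul_assoc]
    · constructor
      · right; right; right; right; right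
        rw [mul_assoc]
      · right; left
        rw [← mul_assoc, hb, one_mul]
    · constructor
      · right; right; right; right; left
        rw [← mul_assoc, ← mul_assoc, ha, one_mul]
      · right; right; right; left
        rw [hab, ← mul_assoc, ← mul_assoc, hb, one_mul]
  have ha' : a⁻¹ = a := inv_eq_of_mul_eq_one_right ha
  have hb' : b⁻¹ = b := inv_eq_of_mul_eq_one_right hb
  have hx' : x ∈ Subgroup.closure ({a, b} : Set G) := hx
  induction hx' using Subgroup.closure_induction_left with
  | one => simp
  | mul_left z hz y hy ih =>
    rcases hz with rfl | hz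
    · exact (key y (ih hy)).1
    · rw [Set.mem_singleton_iff] at hz
      rw [hz]
      exact (key y (ih hy)).2
  | inv_mul_cancel z hz y hy ih =>
    rcases hz with rfl | hz
    · rw [ha']
      exact (key y (ih hy)).1
    · rw [Set.mem_singleton_iff] at hz
      rw [hz, hb']
      exact (key y (ih hy)).2

theorem fin_single {a : G} (ha : a * a = 1) :
    ((Subgroup.closure {a} : Subgroup G) : Set G).Finite := by
  have h := fin_pair ha ha rfl
  rwa [Set.pair_eq_singleton] at h

/-- commuting finite subgroups -/
theorem fin_gen {X ι : Type*} [Finite ι] (f : X → G) (β : X → ι)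
    (htop : Subgroup.closure (Set.range f) = ⊤)
    (hcomm : ∀ x y, β x ≠ β y → Commute (f x) (f y))
    (hfin : ∀ i, ((Subgroup.closure (f '' {x | β x = i}) : Subgroup G) : Set G).Finite) :
    Finite G := by
  classical
  have := Fintype.ofFinite ι
  let H : ι → Subgroup G := fun i => Subgroup.closure (f '' {x | β x = i})
  have hc : Pairwise fun i j : ι => ∀ x y : G, x ∈ H i → y ∈ H j → Commute x y := by
    intro i j hij x y hx hy
    induction hx using Subgroup.closure_induction with
    | mem x hx =>
      obtain ⟨u, hu, rfl⟩ := hx
      induction hy using Subgroup.closure_induction with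
      | mem y hy =>
        obtain ⟨v, hv, rfl⟩ := hy
        apply hcomm
        rw [hu, hv]
        exact hij
      | one => exact Commute.one_right _
      | mul x y _ _ h1 h2 => exact h1.mul_right h2
      | inv x _ h1 => exact h1.inv_right
    | one => exact Commute.one_left _
    | mul x y _ _ h1 h2 => exact h1.mul_left h2
    | inv x _ h1 => exact h1.inv_left
  have hr := Subgroup.noncommPiCoprod_range (H := H) (hcomm := hc)
  have hsup : (⨆ i, H i) = ⊤ := by
    rw [eq_top_iff, ← htop, Subgroup.closure_le]
    rintro _ ⟨x, rfl⟩
    exact (le_iSup H (β x)) (Subgroup.subset_closure ⟨x, rfl, rfl⟩)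
  have hf : ∀ i, Finite (H i) := fun i => (hfin i).to_subtype
  rw [hsup, MonoidHom.range_eq_top] at hr
  exact Finite.of_surjective _ hr

end gp

section fc

variable {B : Type*} [Fintype B] [DecidableEq B] {M : CoxeterMatrix B}

theorem submatrix_apply (T : Set B) (i j : T) : submatrix M T i j = M i.1 j.1 := rfl

theorem fc_main {Y : Finset B} {w : List (B × ℤ)} {p : B → B} (hY : FCType M (Y : Set B))
    (h3 : ∀ s ∈ Y, ∀ t, t ∉ Y → M s t ≠ 3) (hp : IsPairing M Y w p) :
    FCType (pairUp M Y p) Set.univ := by
  classical
  intro T _ hT
  let N := submatrix (pairUp M Y p) T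
  let cs := N.toCoxeterSystem
  have hpY : ∀ s, s ∉ Y → p s ∉ Y := by
    intro s hs hps
    by_cases h : syllables s w = 3
    · have h1 := (hp.2 s hs h).1
      exact h3 (p s) hps s hs (by rw [M.symmetric]; exact h1)
    · rw [hp.1 s (Or.inr h)] at hps
      exact hs hps
  have hpp : ∀ s, s ∉ Y → p (p s) = s := by
    intro s hs
    by_cases h : syllables s w = 3
    · exact (hp.2 s hs h).2 (hpY s hs)
    · rw [hp.1 s (Or.inr h), hp.1 s (Or.inr h)]
  let β : T → Option (Set B) := fun x => if x.1 ∈ Y then none else some {x.1, p x.1}
  refine fin_gen (G := N.Group) cs.simple β cs.subgroup_closure_range_simple ?_ ?_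
  · intro x y hxy
    have hne : x.1 ≠ y.1 := by
      intro h
      exact hxy (by rw [Subtype.ext h])
    have hN : N x y = 2 := by
      have h0 : pairUp M Y p x.1 y.1 ≠ 0 := hT _ x.2 _ y.2
      show pairUp M Y p x.1 y.1 = 2
      rw [pairUp_apply, if_neg hne] at h0 ⊢
      by_cases hc : M x.1 y.1 = 2 ∨ ((x.1 ∈ Y ∨ p x.1 = y.1) ∧ (y.1 ∈ Y ∨ p y.1 = x.1))
      · rw [if_pos hc]
        rcases hc with h | ⟨h1, h2⟩
        · exact h
        · exfalso
          by_cases hx : x.1 ∈ Y
          · by_cases hy : y.1 ∈ Y
            · apply hxy
              show (if x.1 ∈ Y then none else some _) = (if y.1 ∈ Y then none else some _)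
              rw [if_pos hx, if_pos hy]
            · have h4 := h2.resolve_left hy
              exact hpY y.1 hy (h4 ▸ hx)
          · have h5 := h1.resolve_left hx
            by_cases hy : y.1 ∈ Y
            · exact hpY x.1 hx (h5 ▸ hy)
            · have h4 := h2.resolve_left hy
              apply hxy
              show (if x.1 ∈ Y then none else some {x.1, p x.1}) =
                (if y.1 ∈ Y then none else some {y.1, p y.1})
              rw [if_neg hx, if_neg hy, h4, h5, Set.pair_comm]
      · rw [if_neg hc] at h0
        exact absurd rfl h0
    have h4 := cs.simple_mul_simple_pow x y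
    rw [hN, pow_two] at h4
    have h5 := cs.simple_mul_simple_self x
    have h6 := cs.simple_mul_simple_self y
    show cs.simple x * cs.simple y = cs.simple y * cs.simple x
    calc cs.simple x * cs.simple y
        = (cs.simple x * cs.simple y * (cs.simple x * cs.simple y)) *
          ((cs.simple y)⁻¹ * (cs.simple x)⁻¹) := by group
      _ = (cs.simple y)⁻¹ * (cs.simple x)⁻¹ := by rw [h4, one_mul]
      _ = _ := by rw [inv_eq_of_mul_eq_one_right h5, inv_eq_of_mul_eq_one_right h6]
  · intro i
    rcases i with _ | P
    · -- the generators in `Y`
      have hsub : T ∩ (Y : Set B) ⊆ (Y : Set B) := Set.inter_subset_right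
      have hlab : ∀ s ∈ T ∩ (Y : Set B), ∀ t ∈ T ∩ (Y : Set B), pairUp M Y p s t = M s t := by
        rintro s ⟨_, hs⟩ t ⟨_, ht⟩
        rw [pairUp_apply]
        by_cases hst : s = t
        · rw [if_pos hst, hst, M.diagonal]
        · rw [if_neg hst, if_pos (Or.inr ⟨Or.inl hs, Or.inl ht⟩)]
      have hfinY := hY (T ∩ (Y : Set B)) hsub fun s hs t ht => by
        rw [← hlab s hs t ht]
        exact hT s hs.1 t ht.1
      let cY := (submatrix M (T ∩ (Y : Set B))).toCoxeterSystem
      let f : ↥(T ∩ (Y : Set B)) → N.Group := fun x => cs.simple ⟨x.1, x.2.1⟩
      have hf : (submatrix M (T ∩ (Y : Set B))).IsLiftable f := by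
        intro x y
        have h4 := cs.simple_mul_simple_pow ⟨x.1, x.2.1⟩ ⟨y.1, y.2.1⟩
        have h5 : N ⟨x.1, x.2.1⟩ ⟨y.1, y.2.1⟩ = submatrix M (T ∩ (Y : Set B)) x y :=
          hlab x.1 x.2 y.1 y.2
        rw [h5] at h4
        exact h4
      let F : (submatrix M (T ∩ (Y : Set B))).Group →* N.Group := cY.lift ⟨f, hf⟩
      have hF : ∀ x, F (cY.simple x) = f x := fun x => cY.lift_apply_simple hf x
      refine Set.Finite.subset (Set.finite_range F) ?_
      have hle : Subgroup.closure (cs.simple '' {x | β x = none}) ≤ F.range := by
        rw [Subgroup.closure_le]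
        rintro _ ⟨x, hx, rfl⟩
        have hxY : x.1 ∈ Y := by
          by_contra hxY
          have hx' : β x = none := hx
          simp only [β, if_neg hxY] at hx'
          exact absurd hx' (by simp)
        exact ⟨cY.simple ⟨x.1, x.2, hxY⟩, hF _⟩
      intro z hz
      exact hle hz
    · -- a block outside
      by_cases hex : ∃ x, β x = some P
      · obtain ⟨x, hx⟩ := hex
        have hxY : x.1 ∉ Y := by
          intro hxY
          simp only [β, if_pos hxY] at hx
          exact absurd hx (by simp)
        have hP : ({x.1, p x.1} : Set B) = P := by
          simp only [β, if_neg hxY] at hx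
          exact Option.some.inj hx
        have hmem : ∀ y, β y = some P → y.1 = x.1 ∨ y.1 = p x.1 := by
          intro y hy
          have hyY : y.1 ∉ Y := by
            intro hyY
            simp only [β, if_pos hyY] at hy
            exact absurd hy (by simp)
          have hyP : ({y.1, p y.1} : Set B) = P := by
            simp only [β, if_neg hyY] at hy
            exact Option.some.inj hy
          have : y.1 ∈ ({x.1, p x.1} : Set B) := by
            rw [hP, ← hyP]
            exact Set.mem_insert _ _
          simpa using this
        by_cases hpT : p x.1 ∈ T ∧ p x.1 ≠ x.1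
        · obtain ⟨hpT, hpne⟩ := hpT
          let y : T := ⟨p x.1, hpT⟩
          have h3' : N x y = 3 := by
            show pairUp M Y p x.1 (p x.1) = 3
            have hs3 : syllables x.1 w = 3 := by
              by_contra h
              exact hpne (hp.1 _ (Or.inr h))
            rw [pairUp_apply, if_neg (Ne.symm hpne), if_pos (Or.inr ⟨Or.inr rfl,
              Or.inr (hpp _ hxY)⟩)]
            exact (hp.2 _ hxY hs3).1
          have h4 := cs.simple_mul_simple_pow x y
          rw [h3'] at h4
          have h5 := cs.simple_mul_simple_self x
          have h6 := cs.simple_mul_simple_self y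
          have h7 : cs.simple x * cs.simple y * cs.simple x =
              cs.simple y * cs.simple x * cs.simple y := by
            have e1 : (cs.simple x)⁻¹ = cs.simple x := inv_eq_of_mul_eq_one_right h5
            have e2 : (cs.simple y)⁻¹ = cs.simple y := inv_eq_of_mul_eq_one_right h6
            have h8 : cs.simple x * cs.simple y * cs.simple x *
                (cs.simple y * cs.simple x * cs.simple y) = 1 := by
              rw [← h4]
              simp only [pow_succ, pow_zero, one_mul, mul_assoc]
            rw [mul_eq_one_iff_eq_inv] at h8
            rw [h8]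
            simp only [mul_inv_rev, e1, e2, mul_assoc]
          refine Set.Finite.subset (fin_pair h5 h6 h7) ?_
          have hle : Subgroup.closure (cs.simple '' {x | β x = some P}) ≤
              Subgroup.closure {cs.simple x, cs.simple y} := by
            rw [Subgroup.closure_le]
            rintro _ ⟨z, hz, rfl⟩
            rcases hmem z hz with h | h
            · have : z = x := Subtype.ext h
              rw [this]
              exact Subgroup.subset_closure (by simp)
            · have : z = y := Subtype.ext h
              rw [this]
              exact Subgroup.subset_closure (by simp)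
          exact hle
        · have h5 := cs.simple_mul_simple_self x
          refine Set.Finite.subset (fin_single h5) ?_
          have hle : Subgroup.closure (cs.simple '' {x | β x = some P}) ≤
              Subgroup.closure {cs.simple x} := by
            rw [Subgroup.closure_le]
            rintro _ ⟨z, hz, rfl⟩
            have hzx : z = x := by
              rcases hmem z hz with h | h
              · exact Subtype.ext h
              · by_contra hne
                exact hpT ⟨h ▸ z.2, fun h' => hne (Subtype.ext (h.trans h'))⟩
            rw [hzx]
            exact Subgroup.subset_closure (by simp)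
          exact hle
      · have : {x | β x = some P} = ∅ := by
          ext x
          exact ⟨fun h => hex ⟨x, h⟩, fun h => h.elim⟩
        rw [this, Set.image_empty, Subgroup.closure_empty]
        exact Set.finite_singleton _

end fc

end Pool.Agent.H2.AW3
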