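import Pool.Graph.R_pool_sql_team_seeded_35f281b4.K7.H20.AW.RelF
import Pool.Graph.R_pool_sql_team_seeded_35f281b4.K7.H20.AW.DecFin
import Pool.Agent.H2.AW3.Defs

/-!
# Words with at most three odd syllables of each generator
-/

set_option autoImplicit false
set_option linter.unusedSectionVars false

namespace Pool.Agent.H2.AW3

open Pool.Agent.Helper741 Pool.Agent.K7.H87.FJ6 CoxeterSystem Pool.Agent.K7.H20.AW

section lists

variable {α : Type*}

theorem dr {y : α} {l u R : List α} (hy : y ∉ u) (h : (y :: l).Sublist (u ++ R)) :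
    (y :: l).Sublist R := by
  induction u with
  | nil => exact h
  | cons a u ih =>
    rw [List.cons_append] at h
    cases h with
    | cons _ h => exact ih (fun hh => hy (List.mem_cons_of_mem _ hh)) h
    | cons_cons _ h => exact absurd List.mem_cons_self hy

theorem sk {x : α} {l u R : List α} (hx : x ∉ u) (h : (x :: l).Sublist (u ++ x :: R)) :
    l.Sublist R :=
  List.cons_sublist_cons.1 (dr hx h)

theorem sk2 {x y : α} (hxy : y ≠ x) {l u R : List α} (hx : x ∉ u)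
    (h : (y :: x :: l).Sublist (u ++ x :: R)) :
    (y ∈ u ∧ l.Sublist R) ∨ (y ∉ u ∧ (y :: x :: l).Sublist R) := by
  by_cases hy : y ∈ u
  · exact Or.inl ⟨hy, sk hx ((List.sublist_cons_self _ _).trans h)⟩
  · refine Or.inr ⟨hy, ?_⟩
    have h1 := dr hy h
    cases h1 with
    | cons _ h => exact h
    | cons_cons _ h => exact absurd rfl hxy

theorem sk1 {x y : α} (hxy : y ≠ x) {u R : List α} (h : [y].Sublist (u ++ x :: R)) :
    y ∈ u ∨ y ∈ R := by
  rw [List.singleton_sublist, List.mem_append, List.mem_cons] at h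
  tauto

theorem no2 {x : α} {l v : List α} (hx : x ∉ v) (hl : x ∈ l) : ¬ l.Sublist v :=
  fun h => hx (h.subset hl)

theorem D3 {x y : α} (hxy : y ≠ x) {u u1 u2 v : List α} (h0 : x ∉ u) (h1 : x ∉ u1) (h2 : x ∉ u2)
    (h3 : x ∉ v) (h : [x, y, x, y].Sublist (u ++ x :: (u1 ++ x :: (u2 ++ x :: v))) ∨
      [y, x, y, x].Sublist (u ++ x :: (u1 ++ x :: (u2 ++ x :: v)))) :
    (y ∈ u1 ∧ y ∈ u2) ∨ (y ∈ u1 ∧ (y ∈ u ∨ y ∈ v)) ∨ (y ∈ u2 ∧ (y ∈ u ∨ y ∈ v)) := by
  rcases h with h | h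
  · have h4 := sk h0 h
    rcases sk2 hxy h1 h4 with ⟨h5, h6⟩ | ⟨h5, h6⟩
    · rcases sk1 hxy h6 with h7 | h7
      · exact Or.inl ⟨h5, h7⟩
      · exact Or.inr (Or.inl ⟨h5, Or.inr h7⟩)
    · rcases sk2 hxy h2 h6 with ⟨h7, h8⟩ | ⟨h7, h8⟩
      · exact Or.inr (Or.inr ⟨h7, Or.inr (List.singleton_sublist.1 h8)⟩)
      · exact absurd h8 (no2 h3 (by simp))
  · rcases sk2 hxy h0 h with ⟨h4, h5⟩ | ⟨h4, h5⟩
    · rcases sk2 hxy h1 h5 with ⟨h6, h7⟩ | ⟨h6, h7⟩
      · exact Or.inr (Or.inl ⟨h6, Or.inl h4⟩)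
      · rcases sk2 hxy h2 h7 with ⟨h8, h9⟩ | ⟨h8, h9⟩
        · exact Or.inr (Or.inr ⟨h8, Or.inl h4⟩)
        · exact absurd h9 (no2 h3 (by simp))
    · rcases sk2 hxy h1 h5 with ⟨h6, h7⟩ | ⟨h6, h7⟩
      · rcases sk2 hxy h2 h7 with ⟨h8, h9⟩ | ⟨h8, h9⟩
        · exact Or.inl ⟨h6, h8⟩
        · exact absurd h9 (no2 h3 (by simp))
      · rcases sk2 hxy h2 h7 with ⟨h8, h9⟩ | ⟨h8, h9⟩
        · exact absurd h9 (no2 h3 (by simp))
        · exact absurd h9 (no2 h3 (by simp))

theorem D2 {x y : α} (hxy : y ≠ x) {u v z : List α} (h0 : x ∉ u) (h1 : x ∉ v) (h2 : x ∉ z)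
    (h : [x, y, x, y].Sublist (u ++ x :: (v ++ x :: z)) ∨
      [y, x, y, x].Sublist (u ++ x :: (v ++ x :: z))) :
    y ∈ v ∧ (y ∈ u ∨ y ∈ z) := by
  rcases h with h | h
  · have h4 := sk h0 h
    rcases sk2 hxy h1 h4 with ⟨h5, h6⟩ | ⟨h5, h6⟩
    · exact ⟨h5, Or.inr (List.singleton_sublist.1 h6)⟩
    · exact absurd h6 (no2 h2 (by simp))
  · rcases sk2 hxy h0 h with ⟨h4, h5⟩ | ⟨h4, h5⟩
    · rcases sk2 hxy h1 h5 with ⟨h6, h7⟩ | ⟨h6, h7⟩
      · exact ⟨h6, Or.inl h4⟩
      · exact absurd h7 (no2 h2 (by simp))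
    · rcases sk2 hxy h1 h5 with ⟨h6, h7⟩ | ⟨h6, h7⟩
      · exact absurd h7 (no2 h2 (by simp))
      · exact absurd h7 (no2 h2 (by simp))

/-- building sublists -/
theorem mk {y : α} {l u R : List α} (hy : y ∈ u) (h : l.Sublist R) : (y :: l).Sublist (u ++ R) :=
  List.cons_sublist_iff.2 ⟨u, R, rfl, hy, h⟩

end lists

section basic

variable {B : Type*} [DecidableEq B] {M : CoxeterMatrix B}

theorem mem_nm {y : B} {w : List (B × ℤ)} : y ∈ w.map Prod.fst ↔ ct y w ≠ 0 := by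
  rw [ct, ne_eq, List.count_eq_zero, not_not]

theorem sub_nil {y x : B} {u : List (B × ℤ)} (hx : ct x u = 0) (hy : ct y u = 0) :
    sub u x y = [] := by
  rw [sub, List.filter_eq_nil_iff]
  intro a ha
  have h1 := ct_eq_zero hx a ha
  have h2 := ct_eq_zero hy a ha
  simp [h1, h2]

theorem sub_append (u v : List (B × ℤ)) (x y : B) : sub (u ++ v) x y = sub u x y ++ sub v x y :=
  List.filter_append _ _

theorem sub_cons_left (x y : B) (k : ℤ) (v : List (B × ℤ)) :
    sub ((x, k) :: v) x y = (x, k) :: sub v x y := by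
  rw [sub, List.filter_cons_of_pos (by simp), sub]

theorem sub_cons_right (x y : B) (k : ℤ) (v : List (B × ℤ)) :
    sub ((y, k) :: v) x y = (y, k) :: sub v x y := by
  rw [sub, List.filter_cons_of_pos (by simp), sub]

theorem sub_comm (w : List (B × ℤ)) (x y : B) : sub w x y = sub w y x := by
  rw [sub, sub]
  apply List.filter_congr
  intro a _
  exact decide_eq_decide.2 or_comm

theorem braided_comm {w : List (B × ℤ)} {x y : B} (h : Braided M w x y) : Braided M w y x := by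
  obtain ⟨h1, a, c, d, h2, h3⟩ := h
  refine ⟨by rw [M.symmetric]; exact h1, a, c, d, h2, ?_⟩
  rw [sub_comm w y x]
  exact h3.symm

theorem braided_ne {w : List (B × ℤ)} {x y : B} (h : Braided M w x y) : x ≠ y := by
  rintro rfl
  have := h.1
  rw [M.diagonal] at this
  norm_num at this

theorem ct_sub (w : List (B × ℤ)) (x y : B) : ct x (sub w x y) = ct x w := by
  induction w with
  | nil => rfl
  | cons q w ih =>
    by_cases hq : q.1 = x ∨ q.1 = y
    · rw [sub, List.filter_cons_of_pos (by simpa using hq), ct_cons, ct_cons]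
      rw [sub] at ih
      rw [ih]
    · rw [sub, List.filter_cons_of_neg (by simpa using hq), ct_cons]
      rw [sub] at ih
      rw [ih, if_neg (fun h => hq (Or.inl h))]
      rfl

theorem ct_sub' (w : List (B × ℤ)) (x y : B) : ct y (sub w x y) = ct y w := by
  rw [sub_comm, ct_sub]

theorem braided_ct {w : List (B × ℤ)} {x y : B} (h : Braided M w x y) : ct x w = 3 := by
  have hxy := braided_ne h
  obtain ⟨_, a, c, d, _, h1 | h1⟩ := h
  · rw [← ct_sub w x y, h1]
    simp [ct_cons, hxy, hxy.symm]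
  · rw [← ct_sub w x y, h1]
    simp [ct_cons, hxy, hxy.symm]

theorem sub_sublist (w : List (B × ℤ)) (x y : B) :
    ((sub w x y).map Prod.fst).Sublist (w.map Prod.fst) :=
  List.Sublist.map _ List.filter_sublist

theorem braided_linked {w : List (B × ℤ)} {x y : B} (h : Braided M w x y) : Linked w x y := by
  obtain ⟨_, a, c, d, _, h1 | h1⟩ := h
  · left
    refine List.Sublist.trans ?_ (sub_sublist w x y)
    rw [h1]
    simp
  · right
    refine List.Sublist.trans ?_ (sub_sublist w x y)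
    rw [h1]
    simp

end basic

section nec

variable {B : Type*} [Fintype B] [DecidableEq B] {M : CoxeterMatrix B}

theorem not_once {v : List (B × ℤ)} {y : B} (ho : ∀ q ∈ v, Odd q.2) (hv : val M v ∈ P M {y}ᶜ) :
    ct y v ≠ 1 := by
  intro h1
  obtain ⟨p, e, q, rfl, hp, hq⟩ := ct_split (b := y) (w := v) (by omega)
  have hq0 : ct y q = 0 := by omega
  have he : Odd e := ho (y, e) (by simp)
  have h2 : g M y ^ e ∈ P M {y}ᶜ := by
    have h3 : g M y ^ e = (val M p)⁻¹ * val M (p ++ (y, e) :: q) * (val M q)⁻¹ := by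
      rw [val_append, val_cons]
      group
    rw [h3]
    exact mul_mem (mul_mem (inv_mem (val_mem (ct_eq_zero hp))) hv)
      (inv_mem (val_mem (ct_eq_zero hq0)))
  rw [K7.H20.AW.pow_mem h2] at he
  exact absurd he (by decide)

theorem lkb_sub {x y : B} (h : M y x ≠ 2) : lkb M x ⊆ ({y}ᶜ : Set B) := by
  rintro u hu rfl
  exact h hu.2

/-- two occurrences -/
theorem occ2 {x : B} {u v z : List (B × ℤ)} {k l : ℤ} (h0 : ct x u = 0) (h1 : ct x v = 0)
    (h2 : ct x z = 0) (hk : Odd k) (hw : val M (u ++ (x, k) :: (v ++ (x, l) :: z)) = 1) :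
    l = -k ∧ val M v ∈ P M (lkb M x) ∧ val M (z ++ u) ∈ P M (lkb M x) := by
  have huP : val M u ∈ P M {x}ᶜ := val_mem (ct_eq_zero h0)
  have hvP : val M v ∈ P M {x}ᶜ := val_mem (ct_eq_zero h1)
  have hzP : val M z ∈ P M {x}ᶜ := val_mem (ct_eq_zero h2)
  have e : g M x ^ k * val M v * g M x ^ l = (val M z * val M u)⁻¹ := by
    rw [eq_inv_iff_mul_eq_one]
    have h1 := congrArg (fun t => (val M u)⁻¹ * t * val M u) hw
    simp only [val_append, val_cons] at h1
    rw [mul_one, inv_mul_cancel] at h1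
    rw [← h1]
    group
  have hhP : (val M z * val M u)⁻¹ ∈ P M {x}ᶜ := inv_mem (mul_mem hzP huP)
  obtain ⟨hyh, hkl, _⟩ := two' hvP hhP e
  have hyL : val M v ∈ P M (lkb M x) := by
    rcases two hvP hhP e with ⟨_, _, h⟩ | ⟨h, _, _⟩
    · exact h
    · exact absurd hk (Int.not_odd_iff_even.2 h)
  refine ⟨by omega, hyL, ?_⟩
  rw [val_append]
  rw [hyh] at hyL
  exact inv_mem_iff.1 hyL

/-- three occurrences -/
theorem occ3 {x : B} {u u1 u2 v : List (B × ℤ)} {a c d : ℤ} (h0 : ct x u = 0) (h1 : ct x u1 = 0)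
    (h2 : ct x u2 = 0) (h3 : ct x v = 0) (ha : Odd a) (hc : Odd c) (hd : Odd d)
    (hw : val M (u ++ (x, a) :: (u1 ++ (x, c) :: (u2 ++ (x, d) :: v))) = 1) :
    ∃ t, M t x = 3 ∧ a + c + d + a * c * d = 0 ∧ ∃ l ∈ P M (lkb M x), ∃ m ∈ P M (lkb M x),
      ∃ n ∈ P M (lkb M x), val M u1 = l * g M t ^ (-d) * m ∧ val M u2 = m⁻¹ * g M t ^ (-a) * n ∧
        val M (v ++ u) = n⁻¹ * g M t ^ (-c) * l⁻¹ := by
  have huP : val M u ∈ P M {x}ᶜ := val_mem (ct_eq_zero h0)
  have h1P : val M u1 ∈ P M {x}ᶜ := val_mem (ct_eq_zero h1)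
  have h2P : val M u2 ∈ P M {x}ᶜ := val_mem (ct_eq_zero h2)
  have hvP : val M v ∈ P M {x}ᶜ := val_mem (ct_eq_zero h3)
  refine rel3_fwd ha hc hd h1P h2P (g3 := val M (v ++ u)) ?_ ?_
  · rw [val_append]
    exact mul_mem hvP huP
  · have h1 := congrArg (fun t => (val M u)⁻¹ * t * val M u) hw
    simp only [val_append, val_cons] at h1
    rw [mul_one, inv_mul_cancel] at h1
    rw [← h1, val_append]
    group

/-- the exponent of the partner -/
theorem expo {x t : B} (ht : M t x = 3) {v : List (B × ℤ)} (ho : ∀ q ∈ v, Odd q.2) {e : ℤ}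
    {l m : Art M} (hl : l ∈ P M (lkb M x)) (hm : m ∈ P M (lkb M x))
    (he : Odd e) (hv : val M v = l * g M t ^ e * m) (hct : ct t v ≤ 1) :
    ∃ p q, v = p ++ (t, e) :: q ∧ ct t p = 0 ∧ ct t q = 0 := by
  have hlt : lkb M x ⊆ ({t}ᶜ : Set B) := lkb_sub (by omega)
  have h0 : ct t v ≠ 0 := by
    intro h0
    have h1 : g M t ^ e ∈ P M {t}ᶜ := by
      have h2 : g M t ^ e = l⁻¹ * val M v * m⁻¹ := by
        rw [hv]
        group
      rw [h2]
      exact mul_mem (mul_mem (inv_mem (P_mono hlt hl)) (val_mem (ct_eq_zero h0)))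
        (inv_mem (P_mono hlt hm))
    rw [K7.H20.AW.pow_mem h1] at he
    exact absurd he (by decide)
  obtain ⟨p, f, q, rfl, hp, hq⟩ := ct_split (b := t) (w := v) (by omega)
  have hq0 : ct t q = 0 := by omega
  have hf : Odd f := ho (t, f) (by simp)
  refine ⟨p, q, ?_, hp, hq0⟩
  have h1 : l⁻¹ * val M p * g M t ^ f * (val M q * m⁻¹) = g M t ^ e := by
    have h2 : g M t ^ e = l⁻¹ * val M (p ++ (t, f) :: q) * m⁻¹ := by
      rw [hv]
      group
    rw [h2, val_append, val_cons]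
    group
  have hpP : l⁻¹ * val M p ∈ P M {t}ᶜ :=
    mul_mem (inv_mem (P_mono hlt hl)) (val_mem (ct_eq_zero hp))
  have hqP : val M q * m⁻¹ ∈ P M {t}ᶜ :=
    mul_mem (val_mem (ct_eq_zero hq0)) (inv_mem (P_mono hlt hm))
  have hgt : g M t ^ e ∈ P M {t} := zpow_mem (g_mem (Set.mem_singleton t)) _
  obtain ⟨l1, hl1, c, hc, l2, hl2, h3, h4⟩ := once (Set.mem_singleton t) hpP hqP hgt hf h1
  rw [Set.inter_compl_self] at hl1 hl2
  rw [P_empty hl1, one_mul] at h3
  rw [P_empty hl2, mul_one] at h4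
  rw [h3, h4] at h1
  have h5 := comm_P hc f
  rw [← h5, mul_assoc, mul_inv_cancel, mul_one] at h1
  have h6 : f - e = 0 := by
    apply K7.H20.AW.pow_mem (M := M) (b := t)
    rw [zpow_sub, h1, mul_inv_cancel]
    exact one_mem _
  have h7 : f = e := by omega
  rw [h7]

theorem nec2 {w : List (B × ℤ)} (hodd : ∀ q ∈ w, Odd q.2) (h3 : ∀ s, ct s w ≤ 3)
    (hw : val M w = 1) {x : B} (hx : ct x w = 2) :
    (∃ k, sub w x x = [(x, k), (x, -k)]) ∧ ∀ y, y ≠ x → Linked w x y → M y x = 2 := by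
  obtain ⟨u, k, v', rfl, hu, hv'⟩ := ct_split (b := x) (w := w) (by omega)
  obtain ⟨v, l, z, rfl, hv, hz⟩ := ct_split (b := x) (w := v') (by omega)
  have hz0 : ct x z = 0 := by omega
  obtain ⟨h1, h2, h4⟩ := occ2 hu hv hz0 (hodd (x, k) (by simp)) hw
  refine ⟨⟨k, ?_⟩, ?_⟩
  · rw [sub_append, sub_cons_left, sub_append, sub_cons_left, sub_nil hu hu, sub_nil hv hv,
      sub_nil hz0 hz0, h1]
    rfl
  · intro y hy hL
    by_contra hM
    have hov : ∀ q ∈ v, Odd q.2 := fun q hq => hodd q (by simp [hq])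
    have hozu : ∀ q ∈ z ++ u, Odd q.2 := fun q hq => by
      rcases List.mem_append.1 hq with h | h
      · exact hodd q (by simp [h])
      · exact hodd q (by simp [h])
    have n1 := not_once hov (P_mono (lkb_sub hM) h2)
    have n2 := not_once hozu (P_mono (lkb_sub hM) h4)
    have h5 := h3 y
    rw [ct_append, ct_cons, if_neg (by exact hy.symm), ct_append, ct_cons,
      if_neg (by exact hy.symm)] at h5
    rw [ct_append] at n2
    rw [Linked] at hL
    simp only [List.map_append, List.map_cons] at hL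
    have e0 : x ∉ u.map Prod.fst := fun h => mem_nm.1 h hu
    have e1 : x ∉ v.map Prod.fst := fun h => mem_nm.1 h hv
    have e2 : x ∉ z.map Prod.fst := fun h => mem_nm.1 h hz0
    have h6 := D2 hy e0 e1 e2 hL
    rw [mem_nm, mem_nm, mem_nm] at h6
    omega

theorem nec3 {w : List (B × ℤ)} (hodd : ∀ q ∈ w, Odd q.2) (h3 : ∀ s, ct s w ≤ 3)
    (hw : val M w = 1) {x : B} (hx : ct x w = 3) :
    ∃ t, Braided M w x t ∧ ∀ y, y ≠ x → Linked w x y → M y x = 2 ∨ y = t := by
  obtain ⟨u, a, v1, rfl, hu, hv1⟩ := ct_split (b := x) (w := w) (by omega)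
  obtain ⟨u1, c, v2, rfl, hu1, hv2⟩ := ct_split (b := x) (w := v1) (by omega)
  obtain ⟨u2, d, v, rfl, hu2, hv3⟩ := ct_split (b := x) (w := v2) (by omega)
  have hv0 : ct x v = 0 := by omega
  have ha : Odd a := hodd (x, a) (by simp)
  have hc : Odd c := hodd (x, c) (by simp)
  have hd : Odd d := hodd (x, d) (by simp)
  obtain ⟨t, ht, har, l, hl, m, hm, n, hn, e1, e2, e3⟩ := occ3 hu hu1 hu2 hv0 ha hc hd hw
  have htx : t ≠ x := by
    rintro rfl
    rw [M.diagonal] at ht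
    norm_num at ht
  have ho1 : ∀ q ∈ u1, Odd q.2 := fun q hq => hodd q (by simp [hq])
  have ho2 : ∀ q ∈ u2, Odd q.2 := fun q hq => hodd q (by simp [hq])
  have ho3 : ∀ q ∈ v ++ u, Odd q.2 := fun q hq => by
    rcases List.mem_append.1 hq with h | h
    · exact hodd q (by simp [h])
    · exact hodd q (by simp [h])
  have hlt : lkb M x ⊆ ({t}ᶜ : Set B) := lkb_sub (by omega)
  have pos : ∀ {r : List (B × ℤ)} {e : ℤ} {l m : Art M}, l ∈ P M (lkb M x) →
      m ∈ P M (lkb M x) → Odd e → val M r = l * g M t ^ e * m → ct t r ≠ 0 := by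
    intro r e l m hl hm he hr h0
    have h1 : g M t ^ e ∈ P M {t}ᶜ := by
      have h2 : g M t ^ e = l⁻¹ * val M r * m⁻¹ := by
        rw [hr]
        group
      rw [h2]
      exact mul_mem (mul_mem (inv_mem (P_mono hlt hl)) (val_mem (ct_eq_zero h0)))
        (inv_mem (P_mono hlt hm))
    rw [K7.H20.AW.pow_mem h1] at he
    exact absurd he (by decide)
  have p1 := pos hl hm hd.neg e1
  have p2 := pos (inv_mem hm) hn ha.neg e2
  have p3 := pos (inv_mem hn) (inv_mem hl) hc.neg e3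
  have hcount : ∀ y, y ≠ x → ct y u + ct y u1 + ct y u2 + ct y v ≤ 3 := by
    intro y hy
    have h5 := h3 y
    rw [ct_append, ct_cons, if_neg (by exact hy.symm), ct_append, ct_cons,
      if_neg (by exact hy.symm), ct_append, ct_cons, if_neg (by exact hy.symm)] at h5
    omega
  have hct := hcount t htx
  rw [ct_append] at p3
  obtain ⟨q1, r1, f1, g1, k1⟩ := expo ht ho1 hl hm hd.neg e1 (by omega)
  obtain ⟨q2, r2, f2, g2, k2⟩ := expo ht ho2 (inv_mem hm) hn ha.neg e2 (by omega)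
  refine ⟨t, ⟨by rw [M.symmetric]; exact ht, ?_⟩, ?_⟩
  · have z1 : ct x q1 = 0 ∧ ct x r1 = 0 := by
      have h := hu1
      rw [f1, ct_append, ct_cons, if_neg (by exact htx)] at h
      omega
    have z2 : ct x q2 = 0 ∧ ct x r2 = 0 := by
      have h := hu2
      rw [f2, ct_append, ct_cons, if_neg (by exact htx)] at h
      omega
    have s1 : sub u1 x t = [(t, -d)] := by
      rw [f1, sub_append, sub_cons_right, sub_nil z1.1 g1, sub_nil z1.2 k1]
      rfl
    have s2 : sub u2 x t = [(t, -a)] := by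
      rw [f2, sub_append, sub_cons_right, sub_nil z2.1 g2, sub_nil z2.2 k2]
      rfl
    have s3 : sub (v ++ u) x t = [(t, -c)] := by
      obtain ⟨q3, r3, f3, g3, k3⟩ := expo ht ho3 (inv_mem hn) (inv_mem hl) hc.neg e3
        (by rw [ct_append]; omega)
      have z3 : ct x q3 = 0 ∧ ct x r3 = 0 := by
        have h : ct x (v ++ u) = 0 := by rw [ct_append]; omega
        rw [f3, ct_append, ct_cons, if_neg (by exact htx)] at h
        omega
      rw [f3, sub_append, sub_cons_right, sub_nil z3.1 g3, sub_nil z3.2 k3]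
      rfl
    rw [sub_append] at s3
    have hfull : sub (u ++ (x, a) :: (u1 ++ (x, c) :: (u2 ++ (x, d) :: v))) x t =
        sub u x t ++ (x, a) :: ([(t, -d)] ++ (x, c) :: ([(t, -a)] ++ (x, d) :: sub v x t)) := by
      rw [sub_append, sub_cons_left, sub_append, sub_cons_left, sub_append, sub_cons_left, s1, s2]
    rcases List.append_eq_singleton_iff.1 s3 with ⟨h5, h6⟩ | ⟨h5, h6⟩
    · refine ⟨-c, -d, -a, by linarith [har], Or.inr ?_⟩
      rw [hfull, h5, h6]
      simp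
    · refine ⟨a, c, d, har, Or.inl ?_⟩
      rw [hfull, h5, h6]
      simp
  · intro y hy hL
    by_contra hcon
    push Not at hcon
    obtain ⟨hM, hyt⟩ := hcon
    have hly : lkb M x ⊆ ({y}ᶜ : Set B) := lkb_sub hM
    have hgt : ∀ e : ℤ, g M t ^ e ∈ P M {y}ᶜ := fun e => zpow_mem (g_mem (Ne.symm hyt)) _
    have n1 := not_once (y := y) ho1 (by
      rw [e1]
      exact mul_mem (mul_mem (P_mono hly hl) (hgt _)) (P_mono hly hm))
    have n2 := not_once (y := y) ho2 (by
      rw [e2]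
      exact mul_mem (mul_mem (inv_mem (P_mono hly hm)) (hgt _)) (P_mono hly hn))
    have n3 := not_once (y := y) ho3 (by
      rw [e3]
      exact mul_mem (mul_mem (inv_mem (P_mono hly hn)) (hgt _)) (inv_mem (P_mono hly hl)))
    rw [ct_append] at n3
    have h5 := hcount y hy
    rw [Linked] at hL
    simp only [List.map_append, List.map_cons] at hL
    have e0 : x ∉ u.map Prod.fst := fun h => mem_nm.1 h hu
    have e1 : x ∉ u1.map Prod.fst := fun h => mem_nm.1 h hu1
    have e2 : x ∉ u2.map Prod.fst := fun h => mem_nm.1 h hu2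
    have e3 : x ∉ v.map Prod.fst := fun h => mem_nm.1 h hv0
    have h6 := D3 hy e0 e1 e2 e3 hL
    rw [mem_nm, mem_nm, mem_nm, mem_nm] at h6
    omega

end nec

end Pool.Agent.H2.AW3
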