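import Pool.Agent.H2.AW3.Main

/-!
# Words with at most three odd syllables of each generator: sufficiency
-/

set_option autoImplicit false
set_option linter.unusedSectionVars false

namespace Pool.Agent.H2.AW3

open Pool.Agent.Helper741 Pool.Agent.K7.H87.FJ6 CoxeterSystem Pool.Agent.K7.H20.AW

section rem

variable {B : Type*} [DecidableEq B] {M : CoxeterMatrix B}

/-- the word without the syllables of `b` and `t` -/
def rem (w : List (B × ℤ)) (b t : B) : List (B × ℤ) :=
  w.filter fun q => ¬ (q.1 = b ∨ q.1 = t)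

/-- the conditions -/
def Good (M : CoxeterMatrix B) (w : List (B × ℤ)) : Prop :=
  (∀ x, sub w x x = [] ∨ (∃ k, sub w x x = [(x, k), (x, -k)]) ∨ ∃! y, Braided M w x y) ∧
    ∀ x y, x ≠ y → Linked w x y → M x y = 2 ∨ Braided M w x y

theorem rem_append (u v : List (B × ℤ)) (b t : B) : rem (u ++ v) b t = rem u b t ++ rem v b t :=
  List.filter_append _ _

theorem rem_left (b t : B) (k : ℤ) (v : List (B × ℤ)) : rem ((b, k) :: v) b t = rem v b t := by
  rw [rem, List.filter_cons_of_neg (by simp), rem]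

theorem rem_right (b t : B) (k : ℤ) (v : List (B × ℤ)) : rem ((t, k) :: v) b t = rem v b t := by
  rw [rem, List.filter_cons_of_neg (by simp), rem]

theorem rem_self {b t : B} {u : List (B × ℤ)} (hb : ∀ q ∈ u, q.1 ≠ b) (ht : ∀ q ∈ u, q.1 ≠ t) :
    rem u b t = u := by
  rw [rem, List.filter_eq_self]
  intro q hq
  simp [hb q hq, ht q hq]

theorem mem_rem {b t : B} {w : List (B × ℤ)} {q : B × ℤ} (h : q ∈ rem w b t) :
    q ∈ w ∧ q.1 ≠ b ∧ q.1 ≠ t := by
  rw [rem, List.mem_filter] at h
  have h2 : ¬ (q.1 = b ∨ q.1 = t) := by simpa using h.2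
  rw [not_or] at h2
  exact ⟨h.1, h2.1, h2.2⟩

theorem sub_rem {b t : B} (w : List (B × ℤ)) {x y : B} (hx : x ≠ b ∧ x ≠ t) (hy : y ≠ b ∧ y ≠ t) :
    sub (rem w b t) x y = sub w x y := by
  rw [sub, rem, List.filter_filter, sub]
  apply List.filter_congr
  intro q _
  by_cases h : q.1 = x ∨ q.1 = y
  · have h1 : ¬ (q.1 = b ∨ q.1 = t) := by
      rintro (h1 | h1) <;> rcases h with h | h <;> simp_all
    simp [h, h1]
  · simp [h]

theorem sub_rem_nil {b t : B} (w : List (B × ℤ)) {x : B} (hx : x = b ∨ x = t) :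
    sub (rem w b t) x x = [] := by
  rw [sub, List.filter_eq_nil_iff]
  intro q hq
  obtain ⟨_, h1, h2⟩ := mem_rem hq
  rcases hx with rfl | rfl
  · simp [h1]
  · simp [h2]

theorem mem_of_linked {w : List (B × ℤ)} {x y : B} (h : Linked w x y) :
    (∃ q ∈ w, q.1 = x) ∧ ∃ q ∈ w, q.1 = y := by
  have key : ∀ z, z ∈ w.map Prod.fst → ∃ q ∈ w, q.1 = z := fun z hz => List.mem_map.1 hz
  rcases h with h | h
  · exact ⟨key x (h.subset (by simp)), key y (h.subset (by simp))⟩
  · exact ⟨key x (h.subset (by simp)), key y (h.subset (by simp))⟩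

theorem good_rem {b t : B} {w : List (B × ℤ)} (h : Good M w)
    (hb : ∀ y, Braided M w b y → y = b ∨ y = t) (ht : ∀ y, Braided M w t y → y = b ∨ y = t) :
    Good M (rem w b t) := by
  have hout : ∀ {x y}, Braided M w x y → ¬ (x = b ∨ x = t) → ¬ (y = b ∨ y = t) := by
    rintro x y hxy hx (rfl | rfl)
    · exact hx (hb x (braided_comm hxy))
    · exact hx (ht x (braided_comm hxy))
  have tr : ∀ {x y}, ¬ (x = b ∨ x = t) → ¬ (y = b ∨ y = t) →
      (Braided M (rem w b t) x y ↔ Braided M w x y) := by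
    intro x y hx hy
    rw [Braided, Braided, sub_rem w (not_or.1 hx) (not_or.1 hy)]
  have hin : ∀ {x y}, Braided M (rem w b t) x y → ¬ (x = b ∨ x = t) ∧ ¬ (y = b ∨ y = t) := by
    intro x y hxy
    obtain ⟨⟨q, hq, rfl⟩, q', hq', rfl⟩ := mem_of_linked (braided_linked hxy)
    exact ⟨not_or.2 (mem_rem hq).2, not_or.2 (mem_rem hq').2⟩
  refine ⟨fun x => ?_, fun x y hxy hL => ?_⟩
  · by_cases hx : x = b ∨ x = t
    · exact Or.inl (sub_rem_nil w hx)
    · rw [sub_rem w (not_or.1 hx) (not_or.1 hx)]
      rcases h.1 x with h1 | h1 | ⟨y, h1, h2⟩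
      · exact Or.inl h1
      · exact Or.inr (Or.inl h1)
      · refine Or.inr (Or.inr ⟨y, (tr hx (hout h1 hx)).2 h1, ?_⟩)
        intro z hz
        exact h2 z ((tr (hin hz).1 (hin hz).2).1 hz)
  · obtain ⟨⟨q, hq, rfl⟩, q', hq', rfl⟩ := mem_of_linked hL
    have hx : ¬ (q.1 = b ∨ q.1 = t) := not_or.2 (mem_rem hq).2
    have hy : ¬ (q'.1 = b ∨ q'.1 = t) := not_or.2 (mem_rem hq').2
    have hs : ((rem w b t).map Prod.fst).Sublist (w.map Prod.fst) :=
      List.Sublist.map _ List.filter_sublist
    have hL' : Linked w q.1 q'.1 := by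
      rcases hL with h1 | h1
      · exact Or.inl (h1.trans hs)
      · exact Or.inr (h1.trans hs)
    rcases h.2 _ _ hxy hL' with h1 | h1
    · exact Or.inl h1
    · exact Or.inr ((tr hx hy).2 h1)

theorem rem_length {b t : B} {w : List (B × ℤ)} (h : ∃ q ∈ w, q.1 = b) :
    (rem w b t).length < w.length := by
  apply List.length_filter_lt_length_iff_exists.2
  obtain ⟨q, hq, hqb⟩ := h
  exact ⟨q, hq, by simp [hqb]⟩

theorem link_mk {b y : B} {u v z : List (B × ℤ)} {k l : ℤ} {w : List (B × ℤ)}
    (hw : w = u ++ (b, k) :: (v ++ (b, l) :: z)) (hv : y ∈ v.map Prod.fst)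
    (hr : y ∈ u.map Prod.fst ∨ y ∈ z.map Prod.fst) : Linked w b y := by
  subst hw
  rw [Linked]
  simp only [List.map_append, List.map_cons]
  rcases hr with h | h
  · right
    refine mk h (List.cons_sublist_cons.2 (mk hv (List.cons_sublist_cons.2 (List.nil_sublist _))))
  · left
    refine List.Sublist.trans ?_ (List.sublist_append_right _ _)
    exact List.cons_sublist_cons.2 (mk hv (List.cons_sublist_cons.2 (List.singleton_sublist.2 h)))

end rem

section suf

variable {B : Type*} [Fintype B] [DecidableEq B] {M : CoxeterMatrix B}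

theorem val_supp (v : List (B × ℤ)) : val M v ∈ P M {y | y ∈ v.map Prod.fst} :=
  val_mem fun a ha => List.mem_map.2 ⟨a, ha, rfl⟩

/-- an element with two disjoint expressions -/
theorem two_supp {u v : List (B × ℤ)} (h : val M u * val M v = 1) {V : Set B}
    (hV : ∀ y, y ∈ u.map Prod.fst → y ∈ v.map Prod.fst → y ∈ V) : val M u ∈ P M V := by
  have h1 : val M u ∈ P M ({y | y ∈ u.map Prod.fst} ∩ {y | y ∈ v.map Prod.fst}) := by
    apply P_inter (val_supp u)
    rw [mul_eq_one_iff_eq_inv.1 h]
    exact inv_mem (val_supp v)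
  exact P_mono (fun y hy => hV y hy.1 hy.2) h1

/-- removing a generator with two syllables -/
theorem suf2 {w u v z : List (B × ℤ)} {b : B} {k : ℤ} (hw : w = u ++ (b, k) :: (v ++ (b, -k) :: z))
    (hu : ∀ q ∈ u, q.1 ≠ b) (hv : ∀ q ∈ v, q.1 ≠ b) (hz : ∀ q ∈ z, q.1 ≠ b)
    (hG : Good M w) (hr : val M (rem w b b) = 1) : val M w = 1 := by
  have hct : ct b w = 2 := by
    have e1 : ct b u = 0 := by
      by_contra h
      obtain ⟨q, hq, hqb⟩ := List.mem_map.1 (mem_nm.2 h)
      exact hu q hq hqb
    have e2 : ct b v = 0 := by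
      by_contra h
      obtain ⟨q, hq, hqb⟩ := List.mem_map.1 (mem_nm.2 h)
      exact hv q hq hqb
    have e3 : ct b z = 0 := by
      by_contra h
      obtain ⟨q, hq, hqb⟩ := List.mem_map.1 (mem_nm.2 h)
      exact hz q hq hqb
    rw [hw, ct_append, ct_cons, ct_append, ct_cons, if_pos rfl, e1, e2, e3]
  have hnb : ∀ y, ¬ Braided M w b y := fun y hy => by
    have := braided_ct hy
    omega
  have hrem : rem w b b = u ++ (v ++ z) := by
    rw [hw, rem_append, rem_left, rem_append, rem_left, rem_self hu hu, rem_self hv hv,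
      rem_self hz hz]
  rw [hrem, val_append, val_append] at hr
  have h1 : val M v * val M (z ++ u) = 1 := by
    rw [val_append]
    calc val M v * (val M z * val M u)
        = (val M u)⁻¹ * (val M u * (val M v * val M z)) * val M u := by group
      _ = 1 := by rw [hr]; group
  have h2 : val M v ∈ P M (lkb M b) := by
    apply two_supp h1
    intro y hy1 hy2
    have hyb : y ≠ b := by
      rintro rfl
      obtain ⟨q, hq, hqb⟩ := List.mem_map.1 hy1
      exact hv q hq hqb
    refine ⟨hyb, ?_⟩
    have hL : Linked w b y := by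
      refine link_mk hw hy1 ?_
      rw [List.map_append, List.mem_append] at hy2
      exact hy2.symm
    rcases hG.2 b y (Ne.symm hyb) hL with h | h
    · rw [M.symmetric]
      exact h
    · exact absurd h (hnb y)
  have h3 := comm_P h2 k
  rw [hw, val_append, val_cons, val_append, val_cons]
  calc val M u * (g M b ^ k * (val M v * (g M b ^ (-k) * val M z)))
      = val M u * ((g M b ^ k * val M v) * (g M b ^ (-k) * val M z)) := by group
    _ = val M u * (val M v * val M z) := by rw [h3]; group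
    _ = 1 := hr

theorem uniq {w : List (B × ℤ)} (hG : Good M w) {x y z : B} (h : Braided M w x y)
    (h' : Braided M w x z) : y = z := by
  have h3 := braided_ct h
  rw [← ct_sub w x x] at h3
  rcases hG.1 x with h1 | ⟨k, h1⟩ | h1
  · rw [h1] at h3
    exact absurd h3 (by show ¬ (0 = 3); decide)
  · rw [h1, ct_cons, ct_cons, if_pos rfl] at h3
    exact absurd h3 (by show ¬ (0 + 1 + 1 = 3); decide)
  · exact h1.unique h h'

theorem conjT {G : Type*} [Group G] {X Y L Z N T : G} (hX : X = L * Z) (hY : Y = Z⁻¹ * N)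
    (hc : T * Z = Z * T) : X * T * Y = L * T * N := by
  rw [hX, hY, mul_assoc L Z T, ← hc]
  group

/-- membership in the link -/
theorem lk_of {w u v : List (B × ℤ)} {b t : B} (hG : Good M w) (hbt : ∀ y, Braided M w b y → y = t)
    (hub : ∀ q ∈ u, q.1 ≠ b) (hut : ∀ q ∈ u, q.1 ≠ t) (h : val M u * val M v = 1)
    (hL : ∀ y, y ∈ u.map Prod.fst → y ∈ v.map Prod.fst → Linked w b y) :
    val M u ∈ P M (lkb M b) := by
  apply two_supp h
  intro y hy1 hy2
  obtain ⟨q, hq, rfl⟩ := List.mem_map.1 hy1
  refine ⟨hub q hq, ?_⟩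
  rcases hG.2 b q.1 (Ne.symm (hub q hq)) (hL _ hy1 hy2) with h | h
  · rw [M.symmetric]
    exact h
  · exact absurd (hbt _ h) (hut q hq)

/-- removing a pair of braided generators -/
theorem suf3 {w G0 G1 G2 G3 G4 G5 G6 : List (B × ℤ)} {b t : B} {a c d : ℤ}
    (hw : w = G0 ++ (b, a) :: (G1 ++ (t, -d) :: (G2 ++ (b, c) :: (G3 ++ (t, -a) ::
      (G4 ++ (b, d) :: (G5 ++ (t, -c) :: G6))))))
    (h0 : ∀ q ∈ G0, q.1 ≠ b ∧ q.1 ≠ t) (h1 : ∀ q ∈ G1, q.1 ≠ b ∧ q.1 ≠ t)
    (h2 : ∀ q ∈ G2, q.1 ≠ b ∧ q.1 ≠ t) (h3 : ∀ q ∈ G3, q.1 ≠ b ∧ q.1 ≠ t)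
    (h4 : ∀ q ∈ G4, q.1 ≠ b ∧ q.1 ≠ t) (h5 : ∀ q ∈ G5, q.1 ≠ b ∧ q.1 ≠ t)
    (h6 : ∀ q ∈ G6, q.1 ≠ b ∧ q.1 ≠ t) (ht : M t b = 3) (ha : Odd a) (hc : Odd c) (hd : Odd d)
    (har : a + c + d + a * c * d = 0) (hG : Good M w) (hbt : Braided M w b t)
    (hr : val M (rem w b t) = 1) : val M w = 1 := by
  have ub : ∀ y, Braided M w b y → y = t := fun y hy => uniq hG hy hbt
  have ut : ∀ y, Braided M w t y → y = b := fun y hy => uniq hG hy (braided_comm hbt)
  have rs : ∀ {G : List (B × ℤ)}, (∀ q ∈ G, q.1 ≠ b ∧ q.1 ≠ t) → rem G b t = G := fun h =>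
    rem_self (fun q hq => (h q hq).1) (fun q hq => (h q hq).2)
  have hrem : rem w b t = G0 ++ (G1 ++ (G2 ++ (G3 ++ (G4 ++ (G5 ++ G6))))) := by
    rw [hw, rem_append, rem_left, rem_append, rem_right, rem_append, rem_left, rem_append,
      rem_right, rem_append, rem_left, rem_append, rem_right, rs h0, rs h1, rs h2, rs h3, rs h4,
      rs h5, rs h6]
  rw [hrem] at hr
  simp only [val_append] at hr
  -- membership
  have f1 : val M G1 * val M G2 ∈ P M (lkb M b) := by
    rw [← val_append]
    refine lk_of (v := G3 ++ (G4 ++ (G5 ++ (G6 ++ G0)))) hG ub ?_ ?_ ?_ ?_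
    · intro q hq
      rcases List.mem_append.1 hq with h | h
      · exact (h1 q h).1
      · exact (h2 q h).1
    · intro q hq
      rcases List.mem_append.1 hq with h | h
      · exact (h1 q h).2
      · exact (h2 q h).2
    · simp only [val_append]
      have := congrArg (fun s => (val M G0)⁻¹ * s * val M G0) hr
      rw [mul_one, inv_mul_cancel] at this
      rw [← this]
      group
    · intro y hy1 hy2
      refine link_mk (u := G0) (v := G1 ++ (t, -d) :: G2) (k := a) (l := c)
        (z := G3 ++ (t, -a) :: (G4 ++ (b, d) :: (G5 ++ (t, -c) :: G6))) (by rw [hw]; simp) ?_ ?_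
      · simp only [List.map_append, List.map_cons, List.mem_append, List.mem_cons] at hy1 ⊢
        tauto
      · simp only [List.map_append, List.map_cons, List.mem_append, List.mem_cons] at hy2 ⊢
        tauto
  have f2 : val M G3 * val M G4 ∈ P M (lkb M b) := by
    rw [← val_append]
    refine lk_of (v := G5 ++ (G6 ++ (G0 ++ (G1 ++ G2)))) hG ub ?_ ?_ ?_ ?_
    · intro q hq
      rcases List.mem_append.1 hq with h | h
      · exact (h3 q h).1
      · exact (h4 q h).1
    · intro q hq
      rcases List.mem_append.1 hq with h | h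
      · exact (h3 q h).2
      · exact (h4 q h).2
    · simp only [val_append]
      have := congrArg (fun s => (val M G0 * val M G1 * val M G2)⁻¹ * s *
        (val M G0 * val M G1 * val M G2)) hr
      rw [mul_one, inv_mul_cancel] at this
      rw [← this]
      group
    · intro y hy1 hy2
      refine link_mk (u := G0 ++ (b, a) :: (G1 ++ (t, -d) :: G2)) (v := G3 ++ (t, -a) :: G4)
        (k := c) (l := d) (z := G5 ++ (t, -c) :: G6) (by rw [hw]; simp) ?_ ?_
      · simp only [List.map_append, List.map_cons, List.mem_append, List.mem_cons] at hy1 ⊢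
        tauto
      · simp only [List.map_append, List.map_cons, List.mem_append, List.mem_cons] at hy2 ⊢
        tauto
  have f3 : val M G2 * val M G3 ∈ P M (lkb M t) := by
    rw [← val_append]
    refine lk_of (v := G4 ++ (G5 ++ (G6 ++ (G0 ++ G1)))) hG ut ?_ ?_ ?_ ?_
    · intro q hq
      rcases List.mem_append.1 hq with h | h
      · exact (h2 q h).2
      · exact (h3 q h).2
    · intro q hq
      rcases List.mem_append.1 hq with h | h
      · exact (h2 q h).1
      · exact (h3 q h).1
    · simp only [val_append]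
      have := congrArg (fun s => (val M G0 * val M G1)⁻¹ * s * (val M G0 * val M G1)) hr
      rw [mul_one, inv_mul_cancel] at this
      rw [← this]
      group
    · intro y hy1 hy2
      refine link_mk (u := G0 ++ (b, a) :: G1) (v := G2 ++ (b, c) :: G3)
        (k := -d) (l := -a) (z := G4 ++ (b, d) :: (G5 ++ (t, -c) :: G6)) (by rw [hw]; simp) ?_ ?_
      · simp only [List.map_append, List.map_cons, List.mem_append, List.mem_cons] at hy1 ⊢
        tauto
      · simp only [List.map_append, List.map_cons, List.mem_append, List.mem_cons] at hy2 ⊢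
        tauto
  have f4 : val M G4 * val M G5 ∈ P M (lkb M t) := by
    rw [← val_append]
    refine lk_of (v := G6 ++ (G0 ++ (G1 ++ (G2 ++ G3)))) hG ut ?_ ?_ ?_ ?_
    · intro q hq
      rcases List.mem_append.1 hq with h | h
      · exact (h4 q h).2
      · exact (h5 q h).2
    · intro q hq
      rcases List.mem_append.1 hq with h | h
      · exact (h4 q h).1
      · exact (h5 q h).1
    · simp only [val_append]
      have := congrArg (fun s => (val M G0 * val M G1 * val M G2 * val M G3)⁻¹ * s *
        (val M G0 * val M G1 * val M G2 * val M G3)) hr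
      rw [mul_one, inv_mul_cancel] at this
      rw [← this]
      group
    · intro y hy1 hy2
      refine link_mk (u := G0 ++ (b, a) :: (G1 ++ (t, -d) :: (G2 ++ (b, c) :: G3)))
        (v := G4 ++ (b, d) :: G5) (k := -a) (l := -c) (z := G6) (by rw [hw]; simp) ?_ ?_
      · simp only [List.map_append, List.map_cons, List.mem_append, List.mem_cons] at hy1 ⊢
        tauto
      · simp only [List.map_append, List.map_cons, List.mem_append, List.mem_cons] at hy2 ⊢
        tauto
  -- the first gap
  obtain ⟨l, hl, z1, hz1, hX1⟩ : ∃ l ∈ P M (lkb M b), ∃ z ∈ P M (lkb M t),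
      val M G1 = l * z := by
    have hs2 : (val M G2)⁻¹ ∈ P M {y | y ∈ G2.map Prod.fst} := inv_mem (val_supp G2)
    have hs1 : val M G1 * val M G2 * (val M G2)⁻¹ ∈ P M {y | y ∈ G1.map Prod.fst} := by
      rw [mul_inv_cancel_right]
      exact val_supp G1
    obtain ⟨l, hl, z, hz, e⟩ := flag f1 hs2 hs1
    rw [mul_inv_cancel_right] at e
    refine ⟨l, P_mono Set.inter_subset_left hl, z, P_mono ?_ hz, e⟩
    rintro y ⟨hy2, hy1⟩
    obtain ⟨q, hq, rfl⟩ := List.mem_map.1 hy1
    refine ⟨(h1 q hq).2, ?_⟩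
    have hL : Linked w t q.1 := by
      refine link_mk (u := G0 ++ (b, a) :: G1) (v := G2 ++ (b, c) :: G3)
        (k := -d) (l := -a) (z := G4 ++ (b, d) :: (G5 ++ (t, -c) :: G6)) (by rw [hw]; simp) ?_ ?_
      · have hy2' : q.1 ∈ G2.map Prod.fst := hy2
        simp only [List.map_append, List.map_cons, List.mem_append, List.mem_cons]
        tauto
      · have hy1' : q.1 ∈ G1.map Prod.fst := hy1
        simp only [List.map_append, List.map_cons, List.mem_append, List.mem_cons]
        tauto
    rcases hG.2 t q.1 (Ne.symm (h1 q hq).2) hL with h | h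
    · rw [M.symmetric]
      exact h
    · exact absurd (ut _ h) (h1 q hq).1
  have h7 : val M G1 * val M G2 * val M G3 * val M G4 * val M G5 * (val M G6 * val M G0) = 1 := by
    have := congrArg (fun s => (val M G0)⁻¹ * s * val M G0) hr
    rw [mul_one, inv_mul_cancel] at this
    rw [← this]
    group
  have hX6 := eq_inv_of_mul_eq_one_right h7
  have hm : l⁻¹ * (val M G1 * val M G2) ∈ P M (lkb M b) := mul_mem (inv_mem hl) f1
  have hz2 : z1 * (val M G2 * val M G3) ∈ P M (lkb M t) := mul_mem hz1 f3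
  have hn : l⁻¹ * (val M G1 * val M G2) * (val M G3 * val M G4) ∈ P M (lkb M b) := mul_mem hm f2
  have hz3 : z1 * (val M G2 * val M G3) * (val M G4 * val M G5) ∈ P M (lkb M t) :=
    mul_mem hz2 f4
  have e1 : val M G1 * g M t ^ (-d) * val M G2 = l * g M t ^ (-d) *
      (l⁻¹ * (val M G1 * val M G2)) := by
    refine conjT hX1 ?_ (comm_P hz1 _)
    rw [hX1]
    group
  have e2 : val M G3 * g M t ^ (-a) * val M G4 = (l⁻¹ * (val M G1 * val M G2))⁻¹ *
      g M t ^ (-a) * (l⁻¹ * (val M G1 * val M G2) * (val M G3 * val M G4)) := by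
    refine conjT ?_ ?_ (comm_P hz2 _)
    · rw [hX1]
      group
    · rw [hX1]
      group
  have e3 : val M G5 * g M t ^ (-c) * (val M G6 * val M G0) =
      (l⁻¹ * (val M G1 * val M G2) * (val M G3 * val M G4))⁻¹ * g M t ^ (-c) * l⁻¹ := by
    refine conjT ?_ ?_ (comm_P hz3 _)
    · rw [hX1]
      group
    · rw [hX6, hX1]
      group
  have hfin := rel3_bwd ht ha hc hd har hl hm hn
  rw [← e1, ← e2, ← e3] at hfin
  have hval : val M w = val M G0 * (g M b ^ a * (val M G1 * g M t ^ (-d) * val M G2) * g M b ^ c *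
      (val M G3 * g M t ^ (-a) * val M G4) * g M b ^ d *
      (val M G5 * g M t ^ (-c) * (val M G6 * val M G0))) * (val M G0)⁻¹ := by
    rw [hw]
    simp only [val_append, val_cons]
    group
  rw [hval, hfin, mul_one, mul_inv_cancel]

theorem split_filter {α : Type*} {p : α → Bool} {w : List α} {a : α} {l : List α}
    (h : w.filter p = a :: l) : ∃ u v, w = u ++ a :: v ∧ (∀ q ∈ u, ¬ p q) ∧ v.filter p = l := by
  obtain ⟨u, v, h1, h2, _, h3⟩ := List.filter_eq_cons_iff.1 h
  exact ⟨u, v, h1, fun q hq => h2 q hq, h3⟩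

/-- sufficiency -/
theorem suf : ∀ (n : ℕ) (w : List (B × ℤ)), w.length = n → (∀ q ∈ w, Odd q.2) → Good M w →
    val M w = 1 := by
  intro n
  induction n using Nat.strong_induction_on with
  | _ n ih =>
    intro w hn hodd hG
    -- a pair of braided generators in a given order
    have key : ∀ b t a c d, M b t = 3 → a + c + d + a * c * d = 0 → Braided M w b t →
        sub w b t = [(b, a), (t, -d), (b, c), (t, -a), (b, d), (t, -c)] → val M w = 1 := by
      intro b t a c d hbt3 har hbt hs
      have hbt3' : M t b = 3 := by rw [M.symmetric]; exact hbt3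
      obtain ⟨G0, w1, e0, g0, hs⟩ := split_filter hs
      obtain ⟨G1, w2, e1, g1, hs⟩ := split_filter hs
      obtain ⟨G2, w3, e2, g2, hs⟩ := split_filter hs
      obtain ⟨G3, w4, e3, g3, hs⟩ := split_filter hs
      obtain ⟨G4, w5, e4, g4, hs⟩ := split_filter hs
      obtain ⟨G5, G6, e5, g5, hs⟩ := split_filter hs
      have g6 : ∀ q ∈ G6, ¬ (decide (q.1 = b ∨ q.1 = t) : Bool) := by
        rw [List.filter_eq_nil_iff] at hs
        exact hs
      have hG' : ∀ {G : List (B × ℤ)}, (∀ q ∈ G, ¬ (decide (q.1 = b ∨ q.1 = t) : Bool)) →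
          ∀ q ∈ G, q.1 ≠ b ∧ q.1 ≠ t := by
        intro G h q hq
        have := h q hq
        simpa using this
      have hw : w = G0 ++ (b, a) :: (G1 ++ (t, -d) :: (G2 ++ (b, c) :: (G3 ++ (t, -a) ::
          (G4 ++ (b, d) :: (G5 ++ (t, -c) :: G6))))) := by
        rw [e0, e1, e2, e3, e4, e5]
      have ha : Odd a := hodd (b, a) (by rw [hw]; simp)
      have hc : Odd c := hodd (b, c) (by rw [hw]; simp)
      have hd : Odd d := hodd (b, d) (by rw [hw]; simp)
      refine suf3 hw (hG' g0) (hG' g1) (hG' g2) (hG' g3) (hG' g4) (hG' g5) (hG' g6) hbt3' ha hc hd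
        har hG hbt ?_
      refine ih _ ?_ _ rfl (fun q hq => hodd q (mem_rem hq).1) (good_rem hG ?_ ?_)
      · rw [← hn]
        exact rem_length ⟨(b, a), by rw [hw]; simp, rfl⟩
      · intro y hy
        exact Or.inr (uniq hG hy hbt)
      · intro y hy
        exact Or.inl (uniq hG hy (braided_comm hbt))
    match w, hn, hodd, hG, key with
    | [], _, _, _, _ => rfl
    | (b, k0) :: w', hn, hodd, hG, key =>
      rcases hG.1 b with h1 | ⟨k, h1⟩ | ⟨t, h1, _⟩
      · rw [sub_cons_left] at h1
        exact absurd h1 (by simp)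
      · obtain ⟨u, v', e0, g0, h2⟩ := split_filter h1
        obtain ⟨v, z, e1, g1, h3⟩ := split_filter h2
        have g2 : ∀ q ∈ z, ¬ (decide (q.1 = b ∨ q.1 = b) : Bool) := by
          rw [List.filter_eq_nil_iff] at h3
          exact h3
        have hG' : ∀ {G : List (B × ℤ)}, (∀ q ∈ G, ¬ (decide (q.1 = b ∨ q.1 = b) : Bool)) →
            ∀ q ∈ G, q.1 ≠ b := by
          intro G h q hq
          have := h q hq
          simpa using this
        have hct : ct b ((b, k0) :: w') = 2 := by
          rw [← ct_sub _ b b, h1, ct_cons, ct_cons, if_pos rfl]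
          rfl
        have hnb : ∀ y, ¬ Braided M ((b, k0) :: w') b y := fun y hy => by
          have := braided_ct hy
          omega
        refine suf2 (by rw [e0, e1]) (hG' g0) (hG' g1) (hG' g2) hG ?_
        refine ih _ ?_ _ rfl (fun q hq => hodd q (mem_rem hq).1) (good_rem hG ?_ ?_)
        · rw [← hn]
          exact rem_length ⟨(b, k0), by simp, rfl⟩
        · intro y hy
          exact absurd hy (hnb y)
        · intro y hy
          exact absurd hy (hnb y)
      · obtain ⟨h2, a, c, d, har, h3 | h3⟩ := h1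
        · exact key b t a c d h2 har ⟨h2, a, c, d, har, Or.inl h3⟩ h3
        · have h4 : M t b = 3 := by rw [M.symmetric]; exact h2
          refine key t b a c d h4 har (braided_comm ⟨h2, a, c, d, har, Or.inr h3⟩) ?_
          rw [sub_comm]
          exact h3

theorem main {w : List (B × ℤ)} (h3 : ∀ s, ct s w ≤ 3) (hodd : ∀ q ∈ w, Odd q.2) :
    val M w = 1 ↔ Good M w := by
  constructor
  · intro hw
    refine ⟨fun x => ?_, fun x y hxy hL => ?_⟩
    · have hx := h3 x
      have hcases : ct x w = 0 ∨ ct x w = 1 ∨ ct x w = 2 ∨ ct x w = 3 := by omega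
      rcases hcases with h | h | h | h
      · exact Or.inl (sub_nil h h)
      · exact absurd h (not_once hodd (by rw [hw]; exact one_mem _))
      · exact Or.inr (Or.inl (nec2 hodd h3 hw h).1)
      · obtain ⟨t, h1, h2⟩ := nec3 hodd h3 hw h
        refine Or.inr (Or.inr ⟨t, h1, fun y hy => ?_⟩)
        rcases h2 y (braided_ne hy).symm (braided_linked hy) with h4 | h4
        · have h5 := hy.1
          rw [M.symmetric, h4] at h5
          exact absurd h5 (by norm_num)
        · exact h4
    · have hx := h3 x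
      obtain ⟨q, hq, hqx⟩ := (mem_of_linked hL).1
      have hpos := ct_pos ⟨q, hq, hqx⟩
      have hcases : ct x w = 1 ∨ ct x w = 2 ∨ ct x w = 3 := by omega
      rcases hcases with h | h | h
      · exact absurd h (not_once hodd (by rw [hw]; exact one_mem _))
      · left
        rw [M.symmetric]
        exact (nec2 hodd h3 hw h).2 y hxy.symm hL
      · obtain ⟨t, h1, h2⟩ := nec3 hodd h3 hw h
        rcases h2 y hxy.symm hL with h4 | h4
        · left
          rw [M.symmetric]
          exact h4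
        · right
          rw [h4]
          exact h1
  · exact suf w.length w rfl hodd

end suf

end Pool.Agent.H2.AW3
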